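import Pool.Agent.H76.MS.NoMin

/-!
# One-sided surfaces do not accumulate at the puncture
-/

set_option autoImplicit false

open Filter Topology Metric

noncomputable section

namespace H76.MS

/-- the punctured ball -/
def PB (a : ℝ) : Set E3 := ball (0 : E3) a \ {0}

/-- relatively closed subsets of the punctured ball are closed away from zero -/
theorem isCompact_shell {S : Set E3} {a : ℝ} (hcl : closure S ∩ PB a = S) {η ρ : ℝ}
    (hη : 0 < η) (hρ : ρ < a) : IsCompact (S ∩ {x : E3 | η ≤ ‖x‖ ∧ ‖x‖ ≤ ρ}) := by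
  have h1 : S ∩ {x : E3 | η ≤ ‖x‖ ∧ ‖x‖ ≤ ρ} = closure S ∩ {x : E3 | η ≤ ‖x‖ ∧ ‖x‖ ≤ ρ} := by
    ext x
    constructor
    · rintro ⟨h, h'⟩
      exact ⟨subset_closure h, h'⟩
    · rintro ⟨h, h'⟩
      refine ⟨?_, h'⟩
      rw [← hcl]
      refine ⟨h, ?_, ?_⟩
      · rw [mem_ball_zero_iff]; exact h'.2.trans_lt hρ
      · intro h0
        rw [Set.mem_singleton_iff] at h0
        have := h'.1
        rw [h0, norm_zero] at this
        linarith
  rw [h1]
  apply Metric.isCompact_of_isClosed_isBounded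
  · refine isClosed_closure.inter ?_
    exact (isClosed_le continuous_const continuous_norm).inter
      (isClosed_le continuous_norm continuous_const)
  · refine (Metric.isBounded_closedBall (x := (0 : E3)) (r := ρ)).subset ?_
    rintro x ⟨_, h⟩
    rw [mem_closedBall_zero_iff]; exact h.2

/-- bounds of the second derivatives near zero -/
theorem bounds_near {v : ℝ × ℝ → ℝ} {U : Set (ℝ × ℝ)} (hU : IsOpen U) (h0 : (0 : ℝ × ℝ) ∈ U)
    (hv : ContDiffOn ℝ 2 v U) : ∃ C0 : ℝ, 0 ≤ C0 ∧ ∀ᶠ q in 𝓝 (0 : ℝ × ℝ), q ∈ U ∧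
      |fderiv ℝ (fderiv ℝ v) q (1, 0) (1, 0)| ≤ C0 ∧
      |fderiv ℝ (fderiv ℝ v) q (0, 1) (1, 0)| ≤ C0 ∧
      |fderiv ℝ (fderiv ℝ v) q (0, 1) (0, 1)| ≤ C0 := by
  have h1 : ContDiffOn ℝ 1 (fderiv ℝ v) U :=
    hv.fderiv_of_isOpen hU (by norm_num)
  have h2 : ContinuousOn (fderiv ℝ (fderiv ℝ v)) U :=
    (h1.fderiv_of_isOpen hU (m := 0) (by norm_num)).continuousOn
  have h3 : ContinuousAt (fderiv ℝ (fderiv ℝ v)) 0 := h2.continuousAt (hU.mem_nhds h0)
  have h4 : ∀ a b : ℝ × ℝ, ContinuousAt (fun q => |fderiv ℝ (fderiv ℝ v) q a b|) 0 := by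
    intro a b
    have e1 : ContinuousAt (fun q => fderiv ℝ (fderiv ℝ v) q a) 0 :=
      h3.clm_apply continuousAt_const
    exact (e1.clm_apply continuousAt_const).abs
  set c1 := |fderiv ℝ (fderiv ℝ v) 0 (1, 0) (1, 0)| with hc1
  set c2 := |fderiv ℝ (fderiv ℝ v) 0 (0, 1) (1, 0)| with hc2
  set c3 := |fderiv ℝ (fderiv ℝ v) 0 (0, 1) (0, 1)| with hc3
  refine ⟨c1 + c2 + c3 + 1, by positivity, ?_⟩
  have p1 : 0 ≤ c1 := abs_nonneg _
  have p2 : 0 ≤ c2 := abs_nonneg _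
  have p3 : 0 ≤ c3 := abs_nonneg _
  filter_upwards [hU.mem_nhds h0, (h4 (1, 0) (1, 0)).eventually_lt continuousAt_const
      (show |fderiv ℝ (fderiv ℝ v) 0 (1, 0) (1, 0)| < c1 + c2 + c3 + 1 by rw [← hc1]; linarith),
    (h4 (0, 1) (1, 0)).eventually_lt continuousAt_const
      (show |fderiv ℝ (fderiv ℝ v) 0 (0, 1) (1, 0)| < c1 + c2 + c3 + 1 by rw [← hc2]; linarith),
    (h4 (0, 1) (0, 1)).eventually_lt continuousAt_const
      (show |fderiv ℝ (fderiv ℝ v) 0 (0, 1) (0, 1)| < c1 + c2 + c3 + 1 by rw [← hc3]; linarith)]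
    with q a1 a2 a3 a4
  exact ⟨a1, a2.le, a3.le, a4.le⟩

/-- If `S` is near `0` above the graph of a subsolution `v` with `v(0) = 0` and does not meet the
graph on one small sphere then `S` does not accumulate at `0`. -/
theorem noAccum {S : Set E3} {a : ℝ} (ha : 0 < a) (hcl : closure S ∩ PB a = S) (hS : IsMin S) {v : ℝ × ℝ → ℝ}
    {U : Set (ℝ × ℝ)} (hU : IsOpen U) (h0 : (0 : ℝ × ℝ) ∈ U) (hv : ContDiffOn ℝ 2 v U)
    (hv0 : v 0 = 0) (hQ : ∀ q ∈ U, 0 ≤ MSE v q) {r : ℝ} (hr : 0 < r)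
    (hab : ∀ x ∈ S, ‖x‖ < r → v (prj x) ≤ x 2) :
    ∃ ρ0 > 0, ∀ ρ, 0 < ρ → ρ < ρ0 → (∀ x ∈ S, ‖x‖ = ρ → v (prj x) < x 2) →
      (0 : E3) ∉ closure S := by
  obtain ⟨C0, hC0, hev⟩ := bounds_near hU h0 hv
  set K := 36 * C0 + 1 with hK
  have hKp : 0 < K := by positivity
  have hprj0 : prj (0 : E3) = 0 := map_zero _
  have hev2 : ∀ᶠ x in 𝓝 (0 : E3), prj x ∈ U ∧
      |fderiv ℝ (fderiv ℝ v) (prj x) (1, 0) (1, 0)| ≤ C0 ∧
      |fderiv ℝ (fderiv ℝ v) (prj x) (0, 1) (1, 0)| ≤ C0 ∧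
      |fderiv ℝ (fderiv ℝ v) (prj x) (0, 1) (0, 1)| ≤ C0 := by
    have : Tendsto prj (𝓝 (0 : E3)) (𝓝 0) := by
      have := prj.continuous.tendsto (0 : E3)
      rwa [hprj0] at this
    exact this.eventually hev
  obtain ⟨δ, hδ, hδs⟩ := Metric.eventually_nhds_iff_ball.1 hev2
  refine ⟨min (min δ r) (min a (1 / K)), by positivity, fun ρ hρ0 hρ hsph h0S => ?_⟩
  have hρδ : ρ < δ := hρ.trans_le ((min_le_left _ _).trans (min_le_left _ _))
  have hρr : ρ < r := hρ.trans_le ((min_le_left _ _).trans (min_le_right _ _))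
  have hρ1 : ρ < a := hρ.trans_le ((min_le_right _ _).trans (min_le_left _ _))
  have hρK : ρ < 1 / K := hρ.trans_le ((min_le_right _ _).trans (min_le_right _ _))
  have hgood : ∀ x : E3, ‖x‖ ≤ ρ → prj x ∈ U ∧
      |fderiv ℝ (fderiv ℝ v) (prj x) (1, 0) (1, 0)| ≤ C0 ∧
      |fderiv ℝ (fderiv ℝ v) (prj x) (0, 1) (1, 0)| ≤ C0 ∧
      |fderiv ℝ (fderiv ℝ v) (prj x) (0, 1) (0, 1)| ≤ C0 := by
    intro x hx
    exact hδs x (by rw [mem_ball_zero_iff]; exact hx.trans_lt hρδ)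
  have hdc : ContinuousOn (fun x : E3 => x 2 - v (prj x)) (closedBall 0 ρ) := by
    refine ContinuousOn.sub (by fun_prop) ?_
    exact hv.continuousOn.comp prj.continuous.continuousOn fun x hx =>
      (hgood x (mem_closedBall_zero_iff.1 hx)).1
  -- a positive lower bound on the sphere
  obtain ⟨m, hm, hms⟩ : ∃ m > 0, ∀ x ∈ S, ‖x‖ = ρ → m ≤ x 2 - v (prj x) := by
    have hc := isCompact_shell hcl hρ0 hρ1
    rcases (S ∩ {x : E3 | ρ ≤ ‖x‖ ∧ ‖x‖ ≤ ρ}).eq_empty_or_nonempty with he | hne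
    · refine ⟨1, one_pos, fun x hx hxρ => ?_⟩
      have : x ∈ S ∩ {x : E3 | ρ ≤ ‖x‖ ∧ ‖x‖ ≤ ρ} := ⟨hx, hxρ.ge, hxρ.le⟩
      rw [he] at this
      exact this.elim
    · obtain ⟨y, hy, hmin⟩ := hc.exists_isMinOn hne (hdc.mono fun x hx =>
        mem_closedBall_zero_iff.2 hx.2.2)
      have hyρ : ‖y‖ = ρ := le_antisymm hy.2.2 hy.2.1
      exact ⟨_, sub_pos.2 (hsph y hy.1 hyρ), fun x hx hxρ => hmin ⟨hx, hxρ.ge, hxρ.le⟩⟩
  -- the comparison
  have key : ∀ ε > 0, ∀ x ∈ S, ‖x‖ ≤ ρ → m + ε * hb K (ρ ^ 2) ≤ bF v ε K x := by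
    intro ε hε x1 hx1 hx1ρ
    by_contra hlt
    push Not at hlt
    set T := K + |bF v ε K x1| / ε with hT
    have hTp : 0 < T := by positivity
    set η := Real.exp (-T) with hη
    have hη0 : 0 < η := Real.exp_pos _
    have hη1 : η < 1 := by rw [hη, Real.exp_lt_one_iff]; linarith
    have hbig : ∀ x ∈ S, ‖x‖ < η → ‖x‖ ≤ ρ → bF v ε K x1 < bF v ε K x := by
      intro x hx hxη hxρ
      have hx0 : x ≠ 0 := by
        have := hcl ▸ hx
        exact this.2.2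
      have hxp : 0 < ‖x‖ := norm_pos_iff.2 hx0
      have h1 : v (prj x) ≤ x 2 := hab x hx (hxρ.trans_lt hρr)
      have h2 : T < -Real.log ‖x‖ := by
        have := Real.log_lt_log hxp hxη
        rw [hη, Real.log_exp] at this
        linarith
      have h3 : hb K (‖x‖ ^ 2) = -Real.log ‖x‖ - K * ‖x‖ := by
        unfold hb
        rw [Real.log_pow, Real.sqrt_sq hxp.le]
        push_cast
        ring
      have h4 : K * ‖x‖ ≤ K := by
        have : ‖x‖ ≤ 1 := (hxη.trans hη1).le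
        nlinarith
      have h5 : |bF v ε K x1| / ε < hb K (‖x‖ ^ 2) := by
        rw [h3]; linarith
      have h6 : |bF v ε K x1| < ε * hb K (‖x‖ ^ 2) := by
        rw [div_lt_iff₀ hε] at h5
        linarith
      have h7 : bF v ε K x = (x 2 - v (prj x)) + ε * hb K (‖x‖ ^ 2) := rfl
      have := le_abs_self (bF v ε K x1)
      linarith
    have hA := isCompact_shell hcl hη0 hρ1
    have hx1A : x1 ∈ S ∩ {x : E3 | η ≤ ‖x‖ ∧ ‖x‖ ≤ ρ} := by
      refine ⟨hx1, ?_, hx1ρ⟩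
      by_contra hc
      exact lt_irrefl _ (hbig x1 hx1 (not_le.1 hc) hx1ρ)
    have hFc : ContinuousOn (bF v ε K) (S ∩ {x : E3 | η ≤ ‖x‖ ∧ ‖x‖ ≤ ρ}) := by
      intro x hx
      have hx0 : x ≠ 0 := by
        have := hcl ▸ hx.1
        exact this.2.2
      have hg := hgood x hx.2.2
      exact (bF_deriv ((hv.contDiffAt (hU.mem_nhds hg.1)).differentiableAt (by norm_num))
        hx0).continuousAt.continuousWithinAt
    obtain ⟨x2, hx2, hmin⟩ := hA.exists_isMinOn ⟨x1, hx1A⟩ hFc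
    have hx21 : bF v ε K x2 ≤ bF v ε K x1 := hmin hx1A
    have hx2ρ : ‖x2‖ < ρ := by
      rcases lt_or_eq_of_le hx2.2.2 with h | h
      · exact h
      · exfalso
        have h1 := hms x2 hx2.1 h
        have h2 : bF v ε K x2 = (x2 2 - v (prj x2)) + ε * hb K (‖x2‖ ^ 2) := rfl
        rw [h] at h2
        linarith
    have hx20 : x2 ≠ 0 := by
      have := hcl ▸ hx2.1
      exact this.2.2
    have hg := hgood x2 hx2ρ.le
    refine noMin hS hx2.1 (hv.contDiffAt (hU.mem_nhds hg.1)) hx20 (hQ _ hg.1) hε hg.2.1 hg.2.2.1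
      hg.2.2.2 ?_ ?_
    · rw [← hK]
      have := hx2ρ.trans hρK
      rw [lt_div_iff₀ hKp] at this
      exact this.le
    · rw [← hK]
      unfold IsLocalMinOn IsMinFilter
      rw [eventually_nhdsWithin_iff]
      have hnear : ∀ᶠ x in 𝓝 x2, ‖x‖ < ρ :=
        (continuous_norm.tendsto x2).eventually (eventually_lt_nhds hx2ρ)
      filter_upwards [hnear] with x hxρ hxS
      rcases le_or_gt η ‖x‖ with h | h
      · exact hmin ⟨hxS, h, hxρ.le⟩
      · exact hx21.trans (hbig x hxS h hxρ.le).le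
  -- let ε tend to zero
  have key2 : ∀ x ∈ S, ‖x‖ ≤ ρ → m ≤ x 2 - v (prj x) := by
    intro x hx hxρ
    by_contra hlt
    push Not at hlt
    set D := hb K (‖x‖ ^ 2) - hb K (ρ ^ 2) with hD
    set gap := m - (x 2 - v (prj x)) with hgap
    have hgp : 0 < gap := by rw [hgap]; linarith
    have h1 := key (gap / (2 * (|D| + 1))) (by positivity) x hx hxρ
    have h2 : bF v (gap / (2 * (|D| + 1))) K x =
      (x 2 - v (prj x)) + gap / (2 * (|D| + 1)) * hb K (‖x‖ ^ 2) := rfl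
    rw [h2] at h1
    have h3 : gap ≤ gap / (2 * (|D| + 1)) * D := by
      rw [hD, mul_sub]; linarith
    have h4 : gap / (2 * (|D| + 1)) * D ≤ gap / (2 * (|D| + 1)) * |D| :=
      mul_le_mul_of_nonneg_left (le_abs_self D) (by positivity)
    have h5 : gap / (2 * (|D| + 1)) * |D| ≤ gap / 2 := by
      rw [div_mul_eq_mul_div, div_le_div_iff₀ (by positivity) (by norm_num)]
      nlinarith [abs_nonneg D]
    linarith
  -- contradiction at zero
  have hd0 : ContinuousAt (fun x : E3 => x 2 - v (prj x)) 0 :=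
    hdc.continuousAt (closedBall_mem_nhds 0 hρ0)
  have hlim : ∀ᶠ x in 𝓝 (0 : E3), x 2 - v (prj x) < m := by
    have h1 : (fun x : E3 => x 2 - v (prj x)) 0 < m := by
      simp only [hprj0, hv0]
      simpa using hm
    exact hd0.eventually (eventually_lt_nhds h1)
  have hnb : ∀ᶠ x in 𝓝 (0 : E3), ‖x‖ ≤ ρ := by
    filter_upwards [closedBall_mem_nhds (0 : E3) hρ0] with x hx
    exact mem_closedBall_zero_iff.1 hx
  obtain ⟨x, hx, hxS⟩ := mem_closure_iff_nhds.1 h0S _ (hlim.and hnb)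
  exact absurd (key2 x hxS hx.2) (not_le.2 hx.1)

end H76.MS
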