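import Pool.Agent.H76.MS.Main

/-!
# Minimal surfaces near a puncture: the final form, after a rotation
-/

set_option autoImplicit false

open Filter Topology Metric

noncomputable section

namespace H76.MS

/-- `S` is near `p` a minimal graph -/
def MinNear (S : Set E3) (p : E3) : Prop :=
  ∃ W : Set E3, IsOpen W ∧ p ∈ W ∧ ∃ R : E3 ≃ₗᵢ[ℝ] E3,
    ∃ Ω : Set (ℝ × ℝ), IsOpen Ω ∧ ∃ f : ℝ × ℝ → ℝ, ContDiffOn ℝ 2 f Ω ∧
      (∀ q ∈ Ω, MSE f q = 0) ∧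
      S ∩ W = W ∩ R '' ((fun q : ℝ × ℝ => vec q.1 q.2 (f q)) '' Ω)

theorem final {S : Set E3} (hcl : closure S ∩ PB 1 = S) (hS : IsMin S) (R : E3 ≃ₗᵢ[ℝ] E3)
    {v : ℝ × ℝ → ℝ} {U : Set (ℝ × ℝ)} (hU : IsOpen U) (h0 : (0 : ℝ × ℝ) ∈ U)
    (hv : ContDiffOn ℝ 2 v U) (hv0 : v 0 = 0) {r : ℝ} (hr : 0 < r)
    (H : NoCross (R.symm '' S) v U r) :
    (∀ p ∈ closure S ∩ ball (0 : E3) 1, MinNear (closure S) p) ∧
    ((0 : E3) ∈ closure S → ∃ t > 0, (∀ q : ℝ × ℝ, ‖q‖ < t → q ∈ U ∧ MSE v q = 0) ∧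
      ∀ x : E3, ‖x‖ < t → (x ∈ closure S ↔ (R.symm x) 2 = v (prj (R.symm x)))) := by
  have hclI : closure (R.symm '' S) = R.symm '' closure S :=
    (R.symm.toHomeomorph.image_closure S).symm
  have hmem : ∀ x : E3, x ∈ closure S ↔ R.symm x ∈ closure (R.symm '' S) := by
    intro x
    rw [hclI]
    constructor
    · intro h
      exact ⟨x, h, rfl⟩
    · rintro ⟨y, hy, hyx⟩
      rwa [← R.symm.injective hyx]
  have key : (0 : E3) ∈ closure S → ∃ κ > 0, ball (0 : ℝ × ℝ) κ ⊆ U ∧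
      (∀ q ∈ ball (0 : ℝ × ℝ) κ, MSE v q = 0) ∧
      ∃ t > 0, ∀ x : E3, ‖x‖ < t → prj (R.symm x) ∈ ball (0 : ℝ × ℝ) κ ∧
        (x ∈ closure S ↔ (R.symm x) 2 = v (prj (R.symm x))) := by
    intro h0S
    obtain ⟨κ, hκ, hκU, hκM, t, ht, hts⟩ := main_std one_pos (hcl_image R.symm hcl)
      (hS.image R.symm) hU h0 hv hv0 hr H (by
        have := (hmem 0).1 h0S
        rwa [map_zero] at this)
    refine ⟨κ, hκ, hκU, hκM, t, ht, fun x hx => ?_⟩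
    have h1 := hts (R.symm x) (by rw [R.symm.norm_map]; exact hx)
    exact ⟨h1.1, (hmem x).trans h1.2⟩
  constructor
  · rintro p ⟨hp, hp1⟩
    by_cases hp0 : p = 0
    · subst hp0
      obtain ⟨κ, hκ, hκU, hκM, t, ht, hts⟩ := key hp
      refine ⟨ball 0 t, isOpen_ball, mem_ball_self ht, R, ball 0 κ, isOpen_ball, v,
        hv.mono hκU, hκM, ?_⟩
      ext x
      constructor
      · rintro ⟨hx, hxt⟩
        obtain ⟨g1, g2⟩ := hts x (mem_ball_zero_iff.1 hxt)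
        refine ⟨hxt, R.symm x, ⟨prj (R.symm x), g1, ?_⟩, R.apply_symm_apply x⟩
        have g3 := g2.1 hx
        change vec ((R.symm x) 0) ((R.symm x) 1) (v (prj (R.symm x))) = R.symm x
        rw [← g3]
        exact vec_eta _
      · rintro ⟨hxt, _, ⟨q, hq, rfl⟩, hqx⟩
        refine ⟨?_, hxt⟩
        rw [(hts x (mem_ball_zero_iff.1 hxt)).2, ← hqx, R.symm_apply_apply]
        rfl
    · have hpP : p ∈ PB 1 := ⟨hp1, hp0⟩
      have hpS : p ∈ S := by rw [← hcl]; exact ⟨hp, hpP⟩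
      obtain ⟨W, hW, hpW, R', Ω, hΩ, f, hf, hm, hSW⟩ := hS p hpS
      have hPo : IsOpen (PB 1) := isOpen_ball.sdiff isClosed_singleton
      refine ⟨W ∩ PB 1, hW.inter hPo, ⟨hpW, hpP⟩, R', Ω, hΩ, f, hf, hm, ?_⟩
      have h1 : closure S ∩ (W ∩ PB 1) = (S ∩ W) ∩ PB 1 := by
        ext x
        constructor
        · rintro ⟨g1, g2, g3⟩
          refine ⟨⟨?_, g2⟩, g3⟩
          rw [← hcl]
          exact ⟨g1, g3⟩
        · rintro ⟨⟨g1, g2⟩, g3⟩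
          exact ⟨subset_closure g1, g2, g3⟩
      rw [h1, hSW]
      ext x; simp only [Set.mem_inter_iff]; tauto
  · intro h0S
    obtain ⟨κ, hκ, hκU, hκM, t, ht, hts⟩ := key h0S
    refine ⟨min t κ, by positivity, fun q hq => ?_, fun x hx =>
      (hts x (hx.trans_le (min_le_left _ _))).2⟩
    have hqb : q ∈ ball (0 : ℝ × ℝ) κ :=
      mem_ball_zero_iff.2 (hq.trans_le (min_le_right _ _))
    exact ⟨hκU hqb, hκM q hqb⟩

end H76.MS
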