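import Pool.Agent.H76.MS.Surf

/-!
# The barrier `x₂ - v(x₀, x₁) + ε (-log |x| - K |x|)`
-/

set_option autoImplicit false

open Filter Topology

noncomputable section

namespace H76.MS

/-- the vertical projection -/
def prj : E3 →L[ℝ] ℝ × ℝ :=
  (EuclideanSpace.proj (0 : Fin 3)).prod (EuclideanSpace.proj (1 : Fin 3))

theorem prj_apply (x : E3) : prj x = (x 0, x 1) := rfl

/-- `-log |x| - K |x|` as a function of `s = |x|²` -/
def hb (K s : ℝ) : ℝ := -(Real.log s / 2) - K * Real.sqrt s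

def hb1 (K s : ℝ) : ℝ := -(s⁻¹ / 2) - K * (1 / (2 * Real.sqrt s))

def hb2 (K s : ℝ) : ℝ := (s ^ 2)⁻¹ / 2 + K / (4 * (s * Real.sqrt s))

theorem hb_deriv (K : ℝ) {s : ℝ} (hs : 0 < s) : HasDerivAt (hb K) (hb1 K s) s := by
  have h1 := (Real.hasDerivAt_log hs.ne').div_const 2
  have h2 := (Real.hasDerivAt_sqrt hs.ne').const_mul K
  exact h1.neg.sub h2

theorem hb1_deriv (K : ℝ) {s : ℝ} (hs : 0 < s) : HasDerivAt (hb1 K) (hb2 K s) s := by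
  have h1 := ((hasDerivAt_inv hs.ne').div_const 2).neg
  have hsq : Real.sqrt s ≠ 0 := (Real.sqrt_pos.2 hs).ne'
  have h2 := (((Real.hasDerivAt_sqrt hs.ne').const_mul 2).inv (by positivity)).const_mul K
  have h3 := h1.sub h2
  have h4 : HasDerivAt (hb1 K)
      (-(-(s ^ 2)⁻¹ / 2) - K * (-(2 * (1 / (2 * √s))) / (2 * √s) ^ 2)) s := by
    refine h3.congr_of_eventuallyEq (Eventually.of_forall fun t => ?_)
    simp [hb1]
  convert h4 using 1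
  unfold hb2
  have hss : Real.sqrt s ^ 2 = s := Real.sq_sqrt hs.le
  have hs0 := hs.ne'
  have e1 : (2 * √s) ^ 2 = 4 * s := by rw [mul_pow, hss]; norm_num
  rw [e1]
  field_simp
  ring

/-- the barrier function -/
def bF (v : ℝ × ℝ → ℝ) (ε K : ℝ) (x : E3) : ℝ := x 2 - v (prj x) + ε * hb K (‖x‖ ^ 2)

/-- its derivative -/
def bF' (v : ℝ × ℝ → ℝ) (ε K : ℝ) (x : E3) : E3 →L[ℝ] ℝ :=
  EuclideanSpace.proj (2 : Fin 3) - (fderiv ℝ v (prj x)).comp prj +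
    (ε * hb1 K (‖x‖ ^ 2) * 2) • innerSL ℝ x

theorem bF_deriv {v : ℝ × ℝ → ℝ} {ε K : ℝ} {x : E3} (hv : DifferentiableAt ℝ v (prj x))
    (hx : x ≠ 0) : HasFDerivAt (bF v ε K) (bF' v ε K x) x := by
  have hs : 0 < ‖x‖ ^ 2 := by positivity
  have h1 : HasFDerivAt (fun x : E3 => x 2) (EuclideanSpace.proj (2 : Fin 3) : E3 →L[ℝ] ℝ) x :=
    (EuclideanSpace.proj (2 : Fin 3) : E3 →L[ℝ] ℝ).hasFDerivAt
  have h2 : HasFDerivAt (fun x => v (prj x)) ((fderiv ℝ v (prj x)).comp prj) x :=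
    hv.hasFDerivAt.comp x prj.hasFDerivAt
  have h3 : HasFDerivAt (fun x : E3 => ‖x‖ ^ 2) (2 • (innerSL ℝ x)) x :=
    (hasStrictFDerivAt_norm_sq x).hasFDerivAt
  have h4 := ((hb_deriv K hs).comp_hasFDerivAt x h3).const_mul ε
  have h5 := (h1.sub h2).add h4
  refine h5.congr_fderiv ?_
  unfold bF'
  congr 1
  ext u
  simp
  ring

theorem bF'_deriv {v : ℝ × ℝ → ℝ} {ε K : ℝ} {x : E3} (hv : ContDiffAt ℝ 2 v (prj x))
    (hx : x ≠ 0) : ∃ F'' : E3 →L[ℝ] E3 →L[ℝ] ℝ, HasFDerivAt (bF' v ε K) F'' x ∧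
      ∀ u : E3, F'' u u = -(fderiv ℝ (fderiv ℝ v) (prj x) (prj u) (prj u)) +
        (4 * ε * hb2 K (‖x‖ ^ 2) * inner ℝ x u ^ 2 + 2 * ε * hb1 K (‖x‖ ^ 2) * ‖u‖ ^ 2) := by
  have hs : 0 < ‖x‖ ^ 2 := by positivity
  have h0 : HasFDerivAt (fderiv ℝ v) (fderiv ℝ (fderiv ℝ v) (prj x)) (prj x) :=
    ((hv.fderiv_right (m := 1) (by norm_num)).differentiableAt (by norm_num)).hasFDerivAt
  have h1 : HasFDerivAt (fun x => fderiv ℝ v (prj x))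
      ((fderiv ℝ (fderiv ℝ v) (prj x)).comp prj) x := h0.comp x prj.hasFDerivAt
  have h2 := h1.clm_comp (hasFDerivAt_const prj x)
  have h3 : HasFDerivAt (fun x : E3 => ‖x‖ ^ 2) (2 • (innerSL ℝ x)) x :=
    (hasStrictFDerivAt_norm_sq x).hasFDerivAt
  have h4 := (((hb1_deriv K hs).comp_hasFDerivAt x h3).const_mul ε).mul_const 2
  have h5 : HasFDerivAt (fun x : E3 => innerSL ℝ x) (innerSL ℝ : E3 →L[ℝ] E3 →L[ℝ] ℝ) x :=
    (innerSL ℝ : E3 →L[ℝ] E3 →L[ℝ] ℝ).hasFDerivAt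
  have h6 := h4.smul h5
  have h7 := ((hasFDerivAt_const (EuclideanSpace.proj (2 : Fin 3) : E3 →L[ℝ] ℝ) x).sub h2).add h6
  refine ⟨_, h7, fun u => ?_⟩
  have e : (innerSL ℝ) u u = ‖u‖ ^ 2 := real_inner_self_eq_norm_sq u
  simp
  rw [e]
  ring

/-! ### the quadratic form -/

/-- `|n|²` times the trace of the Hessian of `v` over the plane orthogonal to `n` -/
def Hq (v11 v12 v22 : ℝ) (n : E3) : ℝ :=
  v11 * (n 1 ^ 2 + n 2 ^ 2) - 2 * v12 * (n 0 * n 1) + v22 * (n 0 ^ 2 + n 2 ^ 2)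

theorem norm_E3 (n : E3) : ‖n‖ ^ 2 = n 0 ^ 2 + n 1 ^ 2 + n 2 ^ 2 := by
  rw [← real_inner_self_eq_norm_sq, inner_E3]
  ring

theorem abs_pair_le (x y : E3) (i j k l : Fin 3) (hij : i ≠ j) (hkl : k ≠ l) :
    |x i * y k + x j * y l| ≤ ‖x‖ * ‖y‖ := by
  have hx : x i ^ 2 + x j ^ 2 ≤ ‖x‖ ^ 2 := by
    rw [norm_E3]
    fin_cases i <;> fin_cases j <;> simp at hij ⊢ <;> nlinarith [sq_nonneg (x 0), sq_nonneg (x 1), sq_nonneg (x 2)]
  have hy : y k ^ 2 + y l ^ 2 ≤ ‖y‖ ^ 2 := by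
    rw [norm_E3]
    fin_cases k <;> fin_cases l <;> simp at hkl ⊢ <;> nlinarith [sq_nonneg (y 0), sq_nonneg (y 1), sq_nonneg (y 2)]
  apply abs_le_of_sq_le_sq _ (by positivity)
  have h1 : (x i * y k + x j * y l) ^ 2 ≤ (x i ^ 2 + x j ^ 2) * (y k ^ 2 + y l ^ 2) := by
    nlinarith [sq_nonneg (x i * y l - x j * y k)]
  calc _ ≤ (x i ^ 2 + x j ^ 2) * (y k ^ 2 + y l ^ 2) := h1
    _ ≤ ‖x‖ ^ 2 * ‖y‖ ^ 2 := by gcongr
    _ = (‖x‖ * ‖y‖) ^ 2 := by ring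

theorem Hq_crude {C0 v11 v12 v22 : ℝ} (h11 : |v11| ≤ C0) (h12 : |v12| ≤ C0) (h22 : |v22| ≤ C0)
    (n : E3) : |Hq v11 v12 v22 n| ≤ 3 * C0 * ‖n‖ ^ 2 := by
  have hC : 0 ≤ C0 := (abs_nonneg _).trans h11
  have e1 := abs_pair_le n n 1 2 1 2 (by decide) (by decide)
  have e2 := abs_pair_le n n 0 1 1 0 (by decide) (by decide)
  have e3 := abs_pair_le n n 0 2 0 2 (by decide) (by decide)
  have h1 : Hq v11 v12 v22 n = v11 * (n 1 * n 1 + n 2 * n 2) - v12 * (n 0 * n 1 + n 1 * n 0) +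
      v22 * (n 0 * n 0 + n 2 * n 2) := by
    unfold Hq; ring
  rw [h1]
  refine (abs_add_le _ _).trans ?_
  have := abs_sub (v11 * (n 1 * n 1 + n 2 * n 2)) (v12 * (n 0 * n 1 + n 1 * n 0))
  rw [abs_mul, abs_mul] at this
  rw [abs_mul v22]
  have f1 := mul_le_mul h11 e1 (abs_nonneg _) hC
  have f2 := mul_le_mul h12 e2 (abs_nonneg _) hC
  have f3 := mul_le_mul h22 e3 (abs_nonneg _) hC
  nlinarith

theorem Hq_add {C0 v11 v12 v22 : ℝ} (h11 : |v11| ≤ C0) (h12 : |v12| ≤ C0) (h22 : |v22| ≤ C0)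
    (x e : E3) : Hq v11 v12 v22 (x - e) ≤
      Hq v11 v12 v22 x + 6 * C0 * (‖x‖ * ‖e‖) + 3 * C0 * ‖e‖ ^ 2 := by
  have hC : 0 ≤ C0 := (abs_nonneg _).trans h11
  have e1 := abs_pair_le x e 1 2 1 2 (by decide) (by decide)
  have e2 := abs_pair_le x e 0 1 1 0 (by decide) (by decide)
  have e3 := abs_pair_le x e 0 2 0 2 (by decide) (by decide)
  have h1 : Hq v11 v12 v22 (x - e) = Hq v11 v12 v22 x + Hq v11 v12 v22 e -
      2 * (v11 * (x 1 * e 1 + x 2 * e 2) - v12 * (x 0 * e 1 + x 1 * e 0) +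
      v22 * (x 0 * e 0 + x 2 * e 2)) := by
    unfold Hq
    simp only [PiLp.sub_apply]
    ring
  have f1 := mul_le_mul h11 e1 (abs_nonneg _) hC
  have f2 := mul_le_mul h12 e2 (abs_nonneg _) hC
  have f3 := mul_le_mul h22 e3 (abs_nonneg _) hC
  rw [← abs_mul] at f1 f2 f3
  have g1 := (abs_le.1 f1).1
  have g2 := (abs_le.1 f2).2
  have g3 := (abs_le.1 f3).1
  have g4 := (abs_le.1 (Hq_crude h11 h12 h22 e)).2
  rw [h1]
  nlinarith

/-- the comparison with the normal of the graph of `v` -/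
theorem Hq_main {C0 v11 v12 v22 μ : ℝ} (h11 : |v11| ≤ C0) (h12 : |v12| ≤ C0) (h22 : |v22| ≤ C0)
    {m e n : E3} (hm : 0 ≤ Hq v11 v12 v22 m) (hm1 : 1 ≤ ‖m‖) (hn : μ • n = m + e) :
    -Hq v11 v12 v22 n ≤ 18 * C0 * ‖e‖ * ‖n‖ ^ 2 := by
  have hC : 0 ≤ C0 := (abs_nonneg _).trans h11
  rcases le_total (1 / 2) ‖e‖ with he | he
  · have h1 := (abs_le.1 (Hq_crude h11 h12 h22 n)).1
    have h2 : 0 ≤ C0 * ‖n‖ ^ 2 := by positivity
    nlinarith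
  · have h1 := Hq_add h11 h12 h22 (m + e) e
    rw [add_sub_cancel_right] at h1
    set M := ‖m + e‖ with hM
    have hMe : 1 / 2 ≤ M := by
      have := norm_sub_le (m + e) e
      rw [add_sub_cancel_right] at this
      linarith
    have he0 := norm_nonneg e
    have h3 : -Hq v11 v12 v22 (m + e) ≤ 18 * C0 * ‖e‖ * M ^ 2 := by
      have h4 : M * ‖e‖ ≤ 2 * M ^ 2 * ‖e‖ :=
        mul_le_mul_of_nonneg_right (by nlinarith) he0
      have h5 : ‖e‖ ^ 2 ≤ 2 * M ^ 2 * ‖e‖ := by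
        have : ‖e‖ ^ 2 ≤ 1 / 2 * ‖e‖ := by nlinarith
        have h6 : (1 : ℝ) / 2 ≤ 2 * M ^ 2 := by nlinarith
        nlinarith
      nlinarith [mul_le_mul_of_nonneg_left h4 hC, mul_le_mul_of_nonneg_left h5 hC]
    have h7 : Hq v11 v12 v22 (m + e) = μ ^ 2 * Hq v11 v12 v22 n := by
      rw [← hn]
      unfold Hq
      simp only [PiLp.smul_apply, smul_eq_mul]
      ring
    have h8 : M ^ 2 = μ ^ 2 * ‖n‖ ^ 2 := by
      rw [hM, ← hn, norm_smul, mul_pow, Real.norm_eq_abs, sq_abs]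
    have hμ : 0 < μ ^ 2 := by
      have : 0 < M ^ 2 := by positivity
      rw [h8] at this
      by_contra hc
      have : μ ^ 2 = 0 := le_antisymm (not_lt.1 hc) (sq_nonneg _)
      rw [this, zero_mul] at h8
      nlinarith
    rw [h7, h8] at h3
    have h9 : μ ^ 2 * (-Hq v11 v12 v22 n) ≤ μ ^ 2 * (18 * C0 * ‖e‖ * ‖n‖ ^ 2) := by nlinarith
    exact le_of_mul_le_mul_left h9 hμ

end H76.MS
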