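import Mathlib

/-!
# Second derivative test along curves on a minimal graph
-/

set_option autoImplicit false

open Filter Topology

noncomputable section

namespace H76.MS

/-- Euclidean three space -/
abbrev E3 : Type := EuclideanSpace ℝ (Fin 3)

/-- necessary second order condition at a local minimum -/
theorem sndTest {φ φ' : ℝ → ℝ} {c : ℝ} (hmin : IsLocalMin φ 0)
    (h1 : ∀ᶠ t in 𝓝 (0 : ℝ), HasDerivAt φ (φ' t) t) (h2 : HasDerivAt φ' c 0) :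
    φ' 0 = 0 ∧ 0 ≤ c := by
  have h0 : φ' 0 = 0 := hmin.hasDerivAt_eq_zero h1.self_of_nhds
  refine ⟨h0, ?_⟩
  by_contra hc
  push_neg at hc
  have hd : deriv φ =ᶠ[𝓝 0] φ' := h1.mono fun t ht => ht.deriv
  have hdd : deriv (deriv φ) 0 = c := by rw [hd.deriv_eq, h2.deriv]
  have hmax : IsLocalMax φ 0 :=
    isLocalMax_of_deriv_deriv_neg (by rw [hdd]; exact hc) (by rw [hd.self_of_nhds, h0])
      h1.self_of_nhds.continuousAt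
  have heq : φ =ᶠ[𝓝 0] fun _ => φ 0 := by
    filter_upwards [hmin, hmax] with t h3 h4
    exact le_antisymm h4 h3
  have h5 : deriv φ =ᶠ[𝓝 0] fun _ => 0 := by
    have := heq.deriv
    simpa using this
  have h6 : deriv (deriv φ) 0 = 0 := by
    rw [h5.deriv_eq]
    simp
  rw [hdd] at h6
  exact absurd h6 hc.ne

/-- first and second order conditions along a curve -/
theorem curveTest {F : E3 → ℝ} {F' : E3 → E3 →L[ℝ] ℝ} {F'' : E3 →L[ℝ] E3 →L[ℝ] ℝ}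
    {γ γ' : ℝ → E3} {g2 p : E3} (hp : γ 0 = p)
    (hF : ∀ᶠ x in 𝓝 p, HasFDerivAt F (F' x) x) (hF' : HasFDerivAt F' F'' p)
    (hγ : ∀ᶠ t in 𝓝 (0 : ℝ), HasDerivAt γ (γ' t) t) (hγ' : HasDerivAt γ' g2 0)
    (hmin : IsLocalMin (fun t => F (γ t)) 0) :
    F' p (γ' 0) = 0 ∧ 0 ≤ F'' (γ' 0) (γ' 0) + F' p g2 := by
  subst hp
  have hc : ContinuousAt γ 0 := hγ.self_of_nhds.continuousAt
  have h1 : ∀ᶠ t in 𝓝 (0 : ℝ), HasDerivAt (fun t => F (γ t)) (F' (γ t) (γ' t)) t := by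
    filter_upwards [hγ, hc.eventually hF] with t ht1 ht2
    exact ht2.comp_hasDerivAt t ht1
  have h2 : HasDerivAt (fun t => F' (γ t) (γ' t)) (F'' (γ' 0) (γ' 0) + F' (γ 0) g2) 0 := by
    have h3 : HasDerivAt (fun t => F' (γ t)) (F'' (γ' 0)) 0 :=
      hF'.comp_hasDerivAt 0 hγ.self_of_nhds
    exact h3.clm_apply hγ'
  exact sndTest hmin h1 h2

/-- the point `(x, y, z)` -/
def vec (x y z : ℝ) : E3 := (EuclideanSpace.equiv (Fin 3) ℝ).symm ![x, y, z]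

/-- the left hand side of the minimal surface equation
`(1 + f_y²) f_xx - 2 f_x f_y f_xy + (1 + f_x²) f_yy` -/
def MSE (f : ℝ × ℝ → ℝ) (q : ℝ × ℝ) : ℝ :=
  (1 + (fderiv ℝ f q ((0 : ℝ), (1 : ℝ))) ^ 2) *
      fderiv ℝ (fun r => fderiv ℝ f r ((1 : ℝ), (0 : ℝ))) q ((1 : ℝ), (0 : ℝ))
    - 2 * fderiv ℝ f q ((1 : ℝ), (0 : ℝ)) * fderiv ℝ f q ((0 : ℝ), (1 : ℝ)) *
      fderiv ℝ (fun r => fderiv ℝ f r ((1 : ℝ), (0 : ℝ))) q ((0 : ℝ), (1 : ℝ))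
    + (1 + (fderiv ℝ f q ((1 : ℝ), (0 : ℝ))) ^ 2) *
      fderiv ℝ (fun r => fderiv ℝ f r ((0 : ℝ), (1 : ℝ))) q ((0 : ℝ), (1 : ℝ))

/-- `S` is near every of its points a minimal graph over a plane -/
def IsMin (S : Set E3) : Prop :=
  ∀ p ∈ S, ∃ W : Set E3, IsOpen W ∧ p ∈ W ∧ ∃ R : E3 ≃ₗᵢ[ℝ] E3,
    ∃ Ω : Set (ℝ × ℝ), IsOpen Ω ∧ ∃ f : ℝ × ℝ → ℝ, ContDiffOn ℝ 2 f Ω ∧
      (∀ q ∈ Ω, MSE f q = 0) ∧
      S ∩ W = W ∩ R '' ((fun q : ℝ × ℝ => vec q.1 q.2 (f q)) '' Ω)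

/-- second derivatives -/
theorem fderiv_dir {f : ℝ × ℝ → ℝ} {q : ℝ × ℝ} (hf : ContDiffAt ℝ 2 f q) (w u : ℝ × ℝ) :
    fderiv ℝ (fun r => fderiv ℝ f r w) q u = fderiv ℝ (fderiv ℝ f) q u w := by
  have h1 : DifferentiableAt ℝ (fderiv ℝ f) q :=
    (hf.fderiv_right (m := 1) (by norm_num)).differentiableAt (by norm_num)
  have h2 : HasFDerivAt (fun r => fderiv ℝ f r w)
      ((ContinuousLinearMap.apply ℝ ℝ w).comp (fderiv ℝ (fderiv ℝ f) q)) q :=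
    (ContinuousLinearMap.apply ℝ ℝ w).hasFDerivAt.comp q h1.hasFDerivAt
  rw [h2.fderiv]
  rfl

theorem sndSymm {f : ℝ × ℝ → ℝ} {q : ℝ × ℝ} (hf : ContDiffAt ℝ 2 f q) (w u : ℝ × ℝ) :
    fderiv ℝ (fderiv ℝ f) q u w = fderiv ℝ (fderiv ℝ f) q w u :=
  (hf.isSymmSndFDerivAt (by simp)) u w

/-- the sum of the second derivatives in the three directions `(1,0)`, `(0,1)`, `(f_y, -f_x)` -/
theorem mse_sum {f : ℝ × ℝ → ℝ} {q : ℝ × ℝ} (hf : ContDiffAt ℝ 2 f q) :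
    fderiv ℝ (fderiv ℝ f) q (1, 0) (1, 0) + fderiv ℝ (fderiv ℝ f) q (0, 1) (0, 1) +
      fderiv ℝ (fderiv ℝ f) q (fderiv ℝ f q (0, 1), -fderiv ℝ f q (1, 0))
        (fderiv ℝ f q (0, 1), -fderiv ℝ f q (1, 0)) = MSE f q := by
  unfold MSE
  rw [fderiv_dir hf, fderiv_dir hf, fderiv_dir hf]
  set a := fderiv ℝ f q (0, 1)
  set b := fderiv ℝ f q (1, 0)
  have h1 : ((a, -b) : ℝ × ℝ) = a • ((1 : ℝ), (0 : ℝ)) + (-b) • ((0 : ℝ), (1 : ℝ)) := by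
    simp
  rw [h1]
  simp only [map_add, map_smul, ContinuousLinearMap.add_apply, ContinuousLinearMap.smul_apply,
    smul_eq_mul]
  rw [sndSymm hf (0, 1) (1, 0)]
  ring

end H76.MS
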