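import Pool.Agent.H76.MS.Hopf

/-!
# Local structure of a surface which touches the graph of `v`
-/

set_option autoImplicit false

open Filter Topology Metric

noncomputable section

namespace H76.MS

/-- `vec` as a continuous linear map -/
def vecL : ℝ × ℝ × ℝ →L[ℝ] E3 :=
  LinearMap.toContinuousLinearMap
    { toFun := fun q => vec q.1 q.2.1 q.2.2
      map_add' := fun q r => by
        ext i
        fin_cases i <;> rfl
      map_smul' := fun c q => by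
        ext i
        fin_cases i <;> rfl }

theorem vecL_apply (x y z : ℝ) : vecL (x, y, z) = vec x y z := rfl

/-- the local parametrisation -/
theorem local_param {S : Set E3} (hS : IsMin S) {p : E3} (hp : p ∈ S) :
    ∃ (W : Set E3) (φ : ℝ × ℝ → E3) (κ : E3 → ℝ × ℝ) (Ω : Set (ℝ × ℝ)) (u0 : ℝ × ℝ)
      (A : ℝ × ℝ →L[ℝ] E3), IsOpen W ∧ p ∈ W ∧ IsOpen Ω ∧ u0 ∈ Ω ∧ φ u0 = p ∧
      Continuous κ ∧ (∀ u, κ (φ u) = u) ∧ (∀ u ∈ Ω, φ u ∈ W → φ u ∈ S) ∧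
      (∀ x ∈ S, x ∈ W → ∃ u ∈ Ω, φ u = x) ∧ HasStrictFDerivAt φ A u0 ∧
      Function.Injective A := by
  obtain ⟨W, hW, hpW, R, Ω, hΩ, f, hf, hm, hSW⟩ := hS p hp
  have hp2 : p ∈ W ∩ R '' ((fun q : ℝ × ℝ => vec q.1 q.2 (f q)) '' Ω) := hSW ▸ ⟨hp, hpW⟩
  obtain ⟨_, _, ⟨q, hq, rfl⟩, hpq⟩ := hp2
  have hcf : ContDiffAt ℝ 2 f q := hf.contDiffAt (hΩ.mem_nhds hq)
  have hfs : HasStrictFDerivAt f (fderiv ℝ f q) q := hcf.hasStrictFDerivAt (by norm_num)
  have hid1 : HasStrictFDerivAt (fun q : ℝ × ℝ => q.1) (ContinuousLinearMap.fst ℝ ℝ ℝ) q :=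
    (ContinuousLinearMap.fst ℝ ℝ ℝ).hasStrictFDerivAt
  have hid2 : HasStrictFDerivAt (fun q : ℝ × ℝ => q.2) (ContinuousLinearMap.snd ℝ ℝ ℝ) q :=
    (ContinuousLinearMap.snd ℝ ℝ ℝ).hasStrictFDerivAt
  have h1 := hid1.prodMk (hid2.prodMk hfs)
  have h2 : HasStrictFDerivAt (fun q : ℝ × ℝ => vec q.1 q.2 (f q)) _ q :=
    vecL.hasStrictFDerivAt.comp q h1
  have h3 : HasStrictFDerivAt (fun q : ℝ × ℝ => R (vec q.1 q.2 (f q))) _ q :=
    R.toContinuousLinearEquiv.toContinuousLinearMap.hasStrictFDerivAt.comp q h2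
  refine ⟨W, fun q => R (vec q.1 q.2 (f q)), fun x => prj (R.symm x), Ω, q, _, hW, hpW, hΩ, hq,
    hpq, prj.continuous.comp R.symm.continuous, ?_, ?_, ?_, h3, ?_⟩
  · intro u
    simp only [R.symm_apply_apply]
    rfl
  · intro u hu huW
    have : R (vec u.1 u.2 (f u)) ∈ S ∩ W := by
      rw [hSW]
      exact ⟨huW, _, ⟨u, hu, rfl⟩, rfl⟩
    exact this.1
  · intro x hx hxW
    have : x ∈ S ∩ W := ⟨hx, hxW⟩
    rw [hSW] at this
    obtain ⟨_, _, ⟨u, hu, rfl⟩, hux⟩ := this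
    exact ⟨u, hu, hux⟩
  · intro a b hab
    have h4 : R (vec a.1 a.2 (fderiv ℝ f q a)) = R (vec b.1 b.2 (fderiv ℝ f q b)) := hab
    have h5 := R.injective h4
    have h6 := congrArg (fun x : E3 => prj x) h5
    exact h6

/-- the tangent plane of `S` at a point where it touches the graph of `v` from above projects
isomorphically to the plane -/
theorem touch_param {S : Set E3} (hS : IsMin S) {v : ℝ × ℝ → ℝ} {p : E3} (hp : p ∈ S)
    (hv : DifferentiableAt ℝ v (prj p))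
    (hmin : IsLocalMinOn (fun x : E3 => x 2 - v (prj x)) S p) :
    ∃ (W : Set E3) (φ : ℝ × ℝ → E3) (κ : E3 → ℝ × ℝ) (Ω : Set (ℝ × ℝ)) (u0 : ℝ × ℝ)
      (A : ℝ × ℝ →L[ℝ] E3), IsOpen W ∧ p ∈ W ∧ IsOpen Ω ∧ u0 ∈ Ω ∧ φ u0 = p ∧
      Continuous κ ∧ (∀ u, κ (φ u) = u) ∧ (∀ u ∈ Ω, φ u ∈ W → φ u ∈ S) ∧
      (∀ x ∈ S, x ∈ W → ∃ u ∈ Ω, φ u = x) ∧ HasStrictFDerivAt φ A u0 ∧
      (∀ w, (A w) 2 = fderiv ℝ v (prj p) (prj (A w))) ∧
      Function.Bijective (fun w => prj (A w)) := by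
  obtain ⟨W, φ, κ, Ω, u0, A, hW, hpW, hΩ, hu0, hφ, hκ, hκφ, h1, h2, hA, hAi⟩ :=
    local_param hS hp
  have hAd : ∀ w, (A w) 2 = fderiv ℝ v (prj p) (prj (A w)) := by
    intro w
    have hd : HasDerivAt (fun t : ℝ => φ (u0 + t • w)) (A w) 0 := by
      have e1 : HasDerivAt (fun t : ℝ => u0 + t • w) w 0 := by
        simpa using ((hasDerivAt_id (0 : ℝ)).smul_const w).const_add u0
      have e2 : HasFDerivAt φ A (u0 + (0 : ℝ) • w) := by simpa using hA.hasFDerivAt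
      exact e2.comp_hasDerivAt 0 e1
    have hg : HasFDerivAt (fun x : E3 => x 2 - v (prj x))
        (EuclideanSpace.proj (2 : Fin 3) - (fderiv ℝ v (prj p)).comp prj) p := by
      have e1 : HasFDerivAt (fun x : E3 => x 2)
          (EuclideanSpace.proj (2 : Fin 3) : E3 →L[ℝ] ℝ) p :=
        (EuclideanSpace.proj (2 : Fin 3) : E3 →L[ℝ] ℝ).hasFDerivAt
      exact e1.sub (hv.hasFDerivAt.comp p prj.hasFDerivAt)
    have h0 : φ (u0 + (0 : ℝ) • w) = p := by simpa using hφ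
    have hg' : HasDerivAt (fun t : ℝ => (fun x : E3 => x 2 - v (prj x)) (φ (u0 + t • w)))
        ((A w) 2 - fderiv ℝ v (prj p) (prj (A w))) 0 := by
      rw [← h0] at hg
      have := hg.comp_hasDerivAt 0 hd
      rw [h0] at this
      exact this
    have hc : Tendsto (fun t : ℝ => φ (u0 + t • w)) (𝓝 0) (𝓝 p) := by
      have := hd.continuousAt.tendsto
      rwa [h0] at this
    have hline : Tendsto (fun t : ℝ => u0 + t • w) (𝓝 0) (𝓝 u0) := by
      have h : Continuous fun t : ℝ => u0 + t • w := by fun_prop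
      simpa using h.tendsto 0
    have hmin' : ∀ᶠ x in 𝓝 p, x ∈ S → p 2 - v (prj p) ≤ x 2 - v (prj x) := by
      have := hmin
      unfold IsLocalMinOn IsMinFilter at this
      exact eventually_nhdsWithin_iff.1 this
    have hloc : IsLocalMin (fun t : ℝ => (fun x : E3 => x 2 - v (prj x)) (φ (u0 + t • w))) 0 := by
      filter_upwards [hline.eventually (hΩ.mem_nhds hu0), hc.eventually (hW.mem_nhds hpW),
        hc.eventually hmin'] with t ht1 ht2 ht3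
      simp only [h0]
      exact ht3 (h1 _ ht1 ht2)
    have := hloc.hasDerivAt_eq_zero hg'
    linarith
  refine ⟨W, φ, κ, Ω, u0, A, hW, hpW, hΩ, hu0, hφ, hκ, hκφ, h1, h2, hA, hAd, ?_⟩
  have hinj : Function.Injective ((prj.comp A : ℝ × ℝ →L[ℝ] ℝ × ℝ) : ℝ × ℝ →ₗ[ℝ] ℝ × ℝ) := by
    rw [injective_iff_map_eq_zero]
    intro w hw
    have hw' : prj (A w) = 0 := hw
    have h3 := hAd w
    rw [hw', map_zero] at h3
    have h4 : A w = 0 := by
      rw [← vec_eta (A w), h3]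
      have h5 := congrArg Prod.fst hw'
      have h6 := congrArg Prod.snd hw'
      rw [prj_apply] at h5 h6
      simp only [Prod.fst_zero, Prod.snd_zero] at h5 h6
      rw [h5, h6, vec_zero]
    apply hAi
    rw [h4, map_zero]
  exact ⟨hinj, LinearMap.injective_iff_surjective.1 hinj⟩

/-- near a touching point the vertical projection is injective on `S` -/
theorem touch_inj {S : Set E3} (hS : IsMin S) {v : ℝ × ℝ → ℝ} {p : E3} (hp : p ∈ S)
    (hv : DifferentiableAt ℝ v (prj p))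
    (hmin : IsLocalMinOn (fun x : E3 => x 2 - v (prj x)) S p) :
    ∃ W : Set E3, IsOpen W ∧ p ∈ W ∧ ∀ x ∈ S ∩ W, ∀ y ∈ S ∩ W, prj x = prj y → x = y := by
  obtain ⟨W, φ, κ, Ω, u0, A, hW, hpW, hΩ, hu0, hφ, hκ, hκφ, h1, h2, hA, hAd, hbij⟩ :=
    touch_param hS hp hv hmin
  have hB : HasStrictFDerivAt (fun u => prj (φ u)) (prj.comp A) u0 :=
    prj.hasStrictFDerivAt.comp u0 hA
  set e : (ℝ × ℝ) ≃L[ℝ] (ℝ × ℝ) :=
    (LinearEquiv.ofBijective ((prj.comp A : ℝ × ℝ →L[ℝ] ℝ × ℝ) : ℝ × ℝ →ₗ[ℝ] ℝ × ℝ)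
      hbij).toContinuousLinearEquiv with he
  have hee : (e : ℝ × ℝ →L[ℝ] ℝ × ℝ) = prj.comp A := by
    ext <;> rfl
  rw [← hee] at hB
  set Φ := hB.toOpenPartialHomeomorph (fun u => prj (φ u)) with hΦ
  have hs : u0 ∈ Φ.source := hB.mem_toOpenPartialHomeomorph_source
  refine ⟨W ∩ κ ⁻¹' Φ.source, hW.inter (Φ.open_source.preimage hκ), ⟨hpW, ?_⟩, ?_⟩
  · change κ p ∈ Φ.source
    rw [← hφ, hκφ]; exact hs
  · rintro x ⟨hxS, hxW, hxκ⟩ y ⟨hyS, hyW, hyκ⟩ hxy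
    obtain ⟨u, hu, rfl⟩ := h2 x hxS hxW
    obtain ⟨w, hw, rfl⟩ := h2 y hyS hyW
    have hu' : u ∈ Φ.source := by
      have : κ (φ u) ∈ Φ.source := hxκ
      rwa [hκφ] at this
    have hw' : w ∈ Φ.source := by
      have : κ (φ w) ∈ Φ.source := hyκ
      rwa [hκφ] at this
    have : u = w := Φ.injOn hu' hw' hxy
    rw [this]

/-- curves in `S` with prescribed projected direction -/
theorem touch_curve {S : Set E3} (hS : IsMin S) {v : ℝ × ℝ → ℝ} {p : E3} (hp : p ∈ S)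
    (hv : DifferentiableAt ℝ v (prj p))
    (hmin : IsLocalMinOn (fun x : E3 => x 2 - v (prj x)) S p) (b : ℝ × ℝ) :
    ∃ (γ : ℝ → E3) (γ' : E3), γ 0 = p ∧ (∀ᶠ t in 𝓝 (0 : ℝ), γ t ∈ S) ∧ HasDerivAt γ γ' 0 ∧
      prj γ' = b ∧ γ' 2 = fderiv ℝ v (prj p) b := by
  obtain ⟨W, φ, κ, Ω, u0, A, hW, hpW, hΩ, hu0, hφ, hκ, hκφ, h1, h2, hA, hAd, hbij⟩ :=
    touch_param hS hp hv hmin
  obtain ⟨w, hw⟩ := hbij.2 b
  have hw' : prj (A w) = b := hw
  have hd : HasDerivAt (fun t : ℝ => φ (u0 + t • w)) (A w) 0 := by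
    have e1 : HasDerivAt (fun t : ℝ => u0 + t • w) w 0 := by
      simpa using ((hasDerivAt_id (0 : ℝ)).smul_const w).const_add u0
    have e2 : HasFDerivAt φ A (u0 + (0 : ℝ) • w) := by simpa using hA.hasFDerivAt
    exact e2.comp_hasDerivAt 0 e1
  have h0 : φ (u0 + (0 : ℝ) • w) = p := by simpa using hφ
  have hc : Tendsto (fun t : ℝ => φ (u0 + t • w)) (𝓝 0) (𝓝 p) := by
    have := hd.continuousAt.tendsto
    rwa [h0] at this
  have hline : Tendsto (fun t : ℝ => u0 + t • w) (𝓝 0) (𝓝 u0) := by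
    have h : Continuous fun t : ℝ => u0 + t • w := by fun_prop
    simpa using h.tendsto 0
  refine ⟨fun t => φ (u0 + t • w), A w, h0, ?_, hd, hw', ?_⟩
  · filter_upwards [hline.eventually (hΩ.mem_nhds hu0), hc.eventually (hW.mem_nhds hpW)]
      with t ht1 ht2
    exact h1 _ ht1 ht2
  · rw [hAd, hw']

end H76.MS
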