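import Pool.Agent.H76.MS.SMP

/-!
# Minimal surfaces near a puncture which do not cross a disc through the puncture
-/

set_option autoImplicit false

open Filter Topology Metric

noncomputable section

namespace H76.MS

/-- a punctured disc of the plane is connected -/
theorem punctured_preconnected {κ : ℝ} (hκ : 0 < κ) :
    IsPreconnected (ball (0 : ℝ × ℝ) κ \ {0}) := by
  have hr : (1 : Cardinal) < Module.rank ℝ (ℝ × ℝ) := by
    have : (1 : ℕ) < Module.finrank ℝ (ℝ × ℝ) := by simp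
    exact_mod_cast Module.lt_rank_of_lt_finrank this
  have h1 : IsPreconnected ({0}ᶜ : Set (ℝ × ℝ)) :=
    (isConnected_compl_singleton_of_one_lt_rank hr 0).isPreconnected
  have hpos : ∀ x : ℝ × ℝ, 0 < 1 + ‖x‖ := fun x => by positivity
  have h2 : (fun x : ℝ × ℝ => (κ / (1 + ‖x‖)) • x) '' {0}ᶜ = ball (0 : ℝ × ℝ) κ \ {0} := by
    ext y
    constructor
    · rintro ⟨x, hx, rfl⟩
      have hx0 : x ≠ 0 := hx
      have hxn : 0 < ‖x‖ := norm_pos_iff.2 hx0
      refine ⟨?_, ?_⟩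
      · rw [mem_ball_zero_iff, norm_smul, Real.norm_eq_abs, abs_of_pos (div_pos hκ (hpos x)),
          div_mul_eq_mul_div, div_lt_iff₀ (hpos x)]
        nlinarith
      · intro h
        rw [Set.mem_singleton_iff, smul_eq_zero] at h
        rcases h with h | h
        · exact absurd h (div_pos hκ (hpos x)).ne'
        · exact hx0 h
    · rintro ⟨hy, hy0⟩
      rw [mem_ball_zero_iff] at hy
      have hy0' : y ≠ 0 := hy0
      have hd : 0 < κ - ‖y‖ := by linarith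
      refine ⟨(κ - ‖y‖)⁻¹ • y, ?_, ?_⟩
      · intro h
        rw [Set.mem_singleton_iff, smul_eq_zero] at h
        rcases h with h | h
        · exact absurd h (inv_pos.2 hd).ne'
        · exact hy0' h
      · change (κ / (1 + ‖(κ - ‖y‖)⁻¹ • y‖)) • (κ - ‖y‖)⁻¹ • y = y
        rw [norm_smul, Real.norm_eq_abs, abs_of_pos (inv_pos.2 hd), smul_smul]
        have : κ / (1 + (κ - ‖y‖)⁻¹ * ‖y‖) * (κ - ‖y‖)⁻¹ = 1 := by
          have h3 : 1 + (κ - ‖y‖)⁻¹ * ‖y‖ = κ * (κ - ‖y‖)⁻¹ := by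
            field_simp
            ring
          rw [h3]
          field_simp
        rw [this, one_smul]
  rw [← h2]
  refine h1.image _ ?_
  refine Continuous.continuousOn ?_
  have h4 : Continuous fun x : ℝ × ℝ => κ / (1 + ‖x‖) :=
    continuous_const.div (by fun_prop) fun x => (hpos x).ne'
  exact h4.smul continuous_id

/-- intersecting with an open set -/
theorem IsMin.inter_open {S G : Set E3} (hS : IsMin S) (hG : IsOpen G) : IsMin (S ∩ G) := by
  rintro p ⟨hp, hpG⟩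
  obtain ⟨W, hW, hpW, R, Ω, hΩ, f, hf, hm, hSW⟩ := hS p hp
  refine ⟨W ∩ G, hW.inter hG, ⟨hpW, hpG⟩, R, Ω, hΩ, f, hf, hm, ?_⟩
  have : S ∩ G ∩ (W ∩ G) = (S ∩ W) ∩ G := by
    ext x; simp only [Set.mem_inter_iff]; tauto
  rw [this, hSW]
  ext x; simp only [Set.mem_inter_iff]; tauto

/-- isometric images -/
theorem IsMin.image {S : Set E3} (hS : IsMin S) (T : E3 ≃ₗᵢ[ℝ] E3) : IsMin (T '' S) := by
  rintro _ ⟨p, hp, rfl⟩
  obtain ⟨W, hW, hpW, R, Ω, hΩ, f, hf, hm, hSW⟩ := hS p hp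
  refine ⟨T '' W, T.toHomeomorph.isOpenMap W hW, ⟨p, hpW, rfl⟩, R.trans T, Ω, hΩ, f, hf, hm, ?_⟩
  rw [← Set.image_inter T.injective, hSW, Set.image_inter T.injective]
  congr 1
  rw [Set.image_image]
  rfl

/-- the local form of coincidence: near a contact point the surface is the graph -/
def Coin (S : Set E3) (v : ℝ × ℝ → ℝ) (p : E3) : Prop :=
  ∃ W : Set E3, IsOpen W ∧ p ∈ W ∧ ∀ x ∈ W, x ∈ S ↔ x 2 = v (prj x)

theorem continuousAt_gap {v : ℝ × ℝ → ℝ} {p : E3} (hv : ContinuousAt v (prj p)) :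
    ContinuousAt (fun x : E3 => x 2 - v (prj x)) p := by
  refine ContinuousAt.sub (by fun_prop) ?_
  exact ContinuousAt.comp hv prj.continuous.continuousAt

/-- near a contact point where `S` is weakly above the graph, `S` is the graph -/
theorem localEq {S W0 : Set E3} (hW0 : IsOpen W0) (h00 : (0 : E3) ∉ S)
    (hcl : closure S ∩ W0 ⊆ S) (hS : IsMin S)
    {v : ℝ × ℝ → ℝ} {U : Set (ℝ × ℝ)} (hU : IsOpen U) (hv : ContDiffOn ℝ 2 v U)
    (hQ : ∀ q ∈ U, 0 ≤ MSE v q)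
    (hab : ∀ x ∈ S, x ∈ W0 → v (prj x) ≤ x 2) {p : E3} (hq0 : prj p ∈ U)
    (hp : p ∈ S) (hpW : p ∈ W0) (hpv : p 2 = v (prj p)) : Coin S v p := by
  have hvc : ContDiffAt ℝ 2 v (prj p) := hv.contDiffAt (hU.mem_nhds hq0)
  have hlp : lift v (prj p) 0 = p := by
    have := lift_eta v p
    rwa [hpv, sub_self] at this
  have hmin : IsLocalMinOn (fun x : E3 => x 2 - v (prj x)) S p := by
    unfold IsLocalMinOn IsMinFilter
    rw [eventually_nhdsWithin_iff]
    filter_upwards [hW0.mem_nhds hpW] with x hx hxS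
    have := hab x hxS hx
    rw [hpv, sub_self]
    linarith
  obtain ⟨W1, hW1, hpW1, hinj⟩ := touch_inj hS hp (hvc.differentiableAt (by norm_num)) hmin
  have h1 := localSM hW0 h00 hcl hS hU hv hQ hab hq0 (by rw [hlp]; exact hp)
    (by rw [hlp]; exact hpW)
  -- the points over `prj x`
  have hprj : Tendsto prj (𝓝 p) (𝓝 (prj p)) := prj.continuous.continuousAt
  have h2 : ∀ᶠ x in 𝓝 p, lift v (prj x) 0 ∈ S := hprj.eventually h1
  have h3 : ∀ᶠ x in 𝓝 p, lift v (prj x) 0 ∈ W1 := by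
    have hlc := lift_continuousOn hv.continuousOn
    have hlcA : ContinuousAt (fun b : (ℝ × ℝ) × ℝ => lift v b.1 b.2) (prj p, 0) :=
      hlc.continuousAt ((hU.prod isOpen_univ).mem_nhds ⟨hq0, trivial⟩)
    have h4 : Tendsto (fun x : E3 => ((prj x, (0 : ℝ)) : (ℝ × ℝ) × ℝ)) (𝓝 p)
        (𝓝 (prj p, 0)) := hprj.prodMk_nhds tendsto_const_nhds
    have h5 : Tendsto (fun x : E3 => lift v (prj x) 0) (𝓝 p) (𝓝 (lift v (prj p) 0)) :=
      hlcA.tendsto.comp h4
    rw [hlp] at h5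
    exact h5.eventually (hW1.mem_nhds hpW1)
  obtain ⟨W, hWs, hW, hpW'⟩ := _root_.eventually_nhds_iff.1
    ((h2.and h3).and (hW1.mem_nhds hpW1))
  refine ⟨W, hW, hpW', fun x hx => ?_⟩
  obtain ⟨⟨g1, g2⟩, g3⟩ := hWs x hx
  constructor
  · intro hxS
    have := hinj x ⟨hxS, g3⟩ _ ⟨g1, g2⟩ (by rw [prj_lift])
    rw [this, prj_lift, lift_two, add_zero]
  · intro hxv
    have := lift_eta v x
    rw [hxv, sub_self] at this
    rwa [this] at g1

/-- the part strictly above the graph does not accumulate at the puncture -/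
theorem above_empty {S : Set E3} {a : ℝ} (ha : 0 < a) (hcl : closure S ∩ PB a = S)
    (hS : IsMin S) {v : ℝ × ℝ → ℝ} {U : Set (ℝ × ℝ)} (hU : IsOpen U) (h0 : (0 : ℝ × ℝ) ∈ U)
    (hv : ContDiffOn ℝ 2 v U) (hv0 : v 0 = 0) (hQ : ∀ q ∈ U, 0 ≤ MSE v q) {r : ℝ} (hr : 0 < r)
    (hco : ∀ p ∈ S, ‖p‖ < r → p 2 = v (prj p) → Coin S v p) :
    ∃ s > 0, ∀ x ∈ S, ‖x‖ < s → x 2 ≤ v (prj x) := by
  have hprj0 : prj (0 : E3) = 0 := map_zero _
  obtain ⟨κ, hκ, hκU⟩ : ∃ κ > 0, ∀ x : E3, ‖x‖ < κ → prj x ∈ U := by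
    have h1 : ∀ᶠ x in 𝓝 (0 : E3), prj x ∈ U := by
      have : Tendsto prj (𝓝 (0 : E3)) (𝓝 (prj 0)) := prj.continuous.continuousAt
      rw [hprj0] at this
      exact this.eventually (hU.mem_nhds h0)
    obtain ⟨κ, hκ, hs⟩ := Metric.eventually_nhds_iff_ball.1 h1
    exact ⟨κ, hκ, fun x hx => hs x (by rwa [mem_ball_zero_iff])⟩
  set r1 := min r (min a κ) with hr1
  have hr10 : 0 < r1 := by positivity
  have hr1r : r1 ≤ r := min_le_left _ _
  have hr1a : r1 ≤ a := (min_le_right _ _).trans (min_le_left _ _)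
  have hr1κ : r1 ≤ κ := (min_le_right _ _).trans (min_le_right _ _)
  have hgap : ContinuousOn (fun x : E3 => x 2 - v (prj x)) (ball 0 r1) := by
    intro x hx
    rw [mem_ball_zero_iff] at hx
    exact (continuousAt_gap (hv.contDiffAt (hU.mem_nhds
      (hκU x (hx.trans_le hr1κ)))).continuousAt).continuousWithinAt
  set G : Set E3 := ball 0 r1 ∩ (fun x : E3 => x 2 - v (prj x)) ⁻¹' Set.Ioi 0 with hG
  have hGo : IsOpen G := hgap.isOpen_inter_preimage isOpen_ball isOpen_Ioi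
  have hS1 : IsMin (S ∩ G) := hS.inter_open hGo
  have hne : ∀ x ∈ S, x ≠ 0 := fun x hx => by
    have := hcl ▸ hx
    exact this.2.2
  have hcl1 : closure (S ∩ G) ∩ PB r1 = S ∩ G := by
    apply Set.Subset.antisymm
    · rintro x ⟨hx, hxr, hx0⟩
      have hxr' : ‖x‖ < r1 := mem_ball_zero_iff.1 hxr
      have hxS : x ∈ S := by
        rw [← hcl]
        exact ⟨closure_mono Set.inter_subset_left hx,
          mem_ball_zero_iff.2 (hxr'.trans_le hr1a), hx0⟩
      have hge : 0 ≤ x 2 - v (prj x) := by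
        by_contra hlt
        push Not at hlt
        have hca : ContinuousAt (fun x : E3 => x 2 - v (prj x)) x :=
          hgap.continuousAt (isOpen_ball.mem_nhds hxr)
        obtain ⟨y, hy, hyG⟩ := mem_closure_iff_nhds.1 hx _
          (hca.eventually (eventually_lt_nhds hlt))
        have h1 : y 2 - v (prj y) < 0 := hy
        have h2 : 0 < y 2 - v (prj y) := hyG.2.2
        linarith
      rcases hge.lt_or_eq with h | h
      · exact ⟨hxS, hxr, h⟩
      · exfalso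
        obtain ⟨W, hW, hxW, hWs⟩ := hco x hxS (hxr'.trans_le hr1r) (by linarith)
        obtain ⟨y, hyW, hyG⟩ := mem_closure_iff_nhds.1 hx _ (hW.mem_nhds hxW)
        have h1 := (hWs y hyW).1 hyG.1
        have h2 : 0 < y 2 - v (prj y) := hyG.2.2
        linarith
    · rintro x hx
      exact ⟨subset_closure hx, hx.2.1, hne x hx.1⟩
  obtain ⟨ρ0, hρ0, hρ⟩ := noAccum hr10 hcl1 hS1 hU h0 hv hv0 hQ hr10 (fun x hx _ => by
    have h2 : 0 < x 2 - v (prj x) := hx.2.2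
    linarith)
  have h0c := hρ (ρ0 / 2) (by positivity) (by linarith) (fun x hx _ => by
    have h2 : 0 < x 2 - v (prj x) := hx.2.2
    linarith)
  obtain ⟨ε, hε, hεs⟩ := Metric.isOpen_iff.1 isClosed_closure.isOpen_compl 0 h0c
  refine ⟨min ε r1, by positivity, fun x hx hxs => ?_⟩
  by_contra hlt
  push Not at hlt
  have h1 : x ∈ ball (0 : E3) ε := mem_ball_zero_iff.2 (hxs.trans_le (min_le_left _ _))
  refine hεs h1 (subset_closure ⟨hx, mem_ball_zero_iff.2 (hxs.trans_le (min_le_right _ _)), ?_⟩)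
  change 0 < x 2 - v (prj x)
  linarith

/-- the sup norm of the projection -/
theorem norm_prj_le (x : E3) : ‖prj x‖ ≤ ‖x‖ := by
  rw [prj_apply, Prod.norm_def, max_le_iff]
  exact ⟨PiLp.norm_apply_le x 0, PiLp.norm_apply_le x 1⟩

/-- the contact set is nothing or everything -/
theorem dichotomy {S : Set E3} {a : ℝ} (ha : 0 < a) (hcl : closure S ∩ PB a = S)
    {v : ℝ × ℝ → ℝ} {U : Set (ℝ × ℝ)} (hU : IsOpen U) (h0 : (0 : ℝ × ℝ) ∈ U)
    (hv : ContDiffOn ℝ 2 v U) (hv0 : v 0 = 0) {r : ℝ} (hr : 0 < r)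
    (hco : ∀ p ∈ S, ‖p‖ < r → p 2 = v (prj p) → Coin S v p) :
    ∃ κ > 0, ball (0 : ℝ × ℝ) κ ⊆ U ∧ (∀ q ∈ ball (0 : ℝ × ℝ) κ, ‖lift v q 0‖ < r) ∧
      ((∀ q ∈ ball (0 : ℝ × ℝ) κ \ {0}, lift v q 0 ∉ S) ∨
      (∀ q ∈ ball (0 : ℝ × ℝ) κ \ {0}, lift v q 0 ∈ S)) := by
  have hlc : ContinuousOn (fun q => lift v q 0) U :=
    (lift_continuousOn hv.continuousOn).comp (f := fun q => ((q, (0 : ℝ)) : (ℝ × ℝ) × ℝ))
      (by fun_prop) fun q hq => ⟨hq, trivial⟩
  have hl0 : lift v 0 0 = 0 := by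
    unfold lift
    rw [hv0, add_zero]
    exact vec_zero
  have h1 : ∀ᶠ q in 𝓝 (0 : ℝ × ℝ), q ∈ U ∧ ‖lift v q 0‖ < min r a := by
    refine Filter.Eventually.and (hU.mem_nhds h0) ?_
    have hca : ContinuousAt (fun q => ‖lift v q 0‖) 0 :=
      (hlc.continuousAt (hU.mem_nhds h0)).norm
    refine hca.eventually (eventually_lt_nhds ?_)
    change ‖lift v 0 0‖ < min r a
    rw [hl0, norm_zero]
    positivity
  obtain ⟨κ, hκ, hκs⟩ := Metric.eventually_nhds_iff_ball.1 h1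
  refine ⟨κ, hκ, fun q hq => (hκs q hq).1, fun q hq => (hκs q hq).2.trans_le (min_le_left _ _), ?_⟩
  by_contra hcon
  push Not at hcon
  obtain ⟨⟨q1, hq1, hq1S⟩, q2, hq2, hq2S⟩ := hcon
  have hlcat : ∀ q ∈ ball (0 : ℝ × ℝ) κ, ContinuousAt (fun q => lift v q 0) q := fun q hq =>
    hlc.continuousAt (hU.mem_nhds (hκs q hq).1)
  have hZo : IsOpen {q : ℝ × ℝ | q ∈ ball (0 : ℝ × ℝ) κ \ {0} ∧ lift v q 0 ∈ S} := by
    rw [isOpen_iff_mem_nhds]
    rintro q ⟨hq, hqS⟩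
    obtain ⟨W, hW, hpW, hWs⟩ := hco _ hqS ((hκs q hq.1).2.trans_le (min_le_left _ _))
      (by rw [prj_lift, lift_two, add_zero])
    filter_upwards [(isOpen_ball.sdiff isClosed_singleton).mem_nhds hq,
      (hlcat q hq.1).eventually (hW.mem_nhds hpW)] with q' e1 e2
    exact ⟨e1, (hWs _ e2).2 (by rw [prj_lift, lift_two, add_zero])⟩
  have hNo : IsOpen {q : ℝ × ℝ | q ∈ ball (0 : ℝ × ℝ) κ \ {0} ∧ lift v q 0 ∉ S} := by
    rw [isOpen_iff_mem_nhds]
    rintro q ⟨hq, hqS⟩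
    have h2 : lift v q 0 ∉ closure S := by
      intro h3
      apply hqS
      rw [← hcl]
      refine ⟨h3, mem_ball_zero_iff.2 ((hκs q hq.1).2.trans_le (min_le_right _ _)), ?_⟩
      intro h4
      have h5 : lift v q 0 = 0 := h4
      have h6 := prj_lift v q 0
      rw [h5, map_zero] at h6
      exact hq.2 h6.symm
    filter_upwards [(isOpen_ball.sdiff isClosed_singleton).mem_nhds hq,
      (hlcat q hq.1).eventually (isClosed_closure.isOpen_compl.mem_nhds h2)] with q' e1 e2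
    exact ⟨e1, fun h => e2 (subset_closure h)⟩
  obtain ⟨q, hq, hq3, hq4⟩ := punctured_preconnected hκ _ _ hZo hNo
    (fun q hq => by
      by_cases h : lift v q 0 ∈ S
      · exact Or.inl ⟨hq, h⟩
      · exact Or.inr ⟨hq, h⟩)
    ⟨q1, hq1, hq1, hq1S⟩ ⟨q2, hq2, hq2, hq2S⟩
  exact hq4.2 hq3.2

/-- the outcome at the puncture -/
theorem outcome {S : Set E3} {a : ℝ} (ha : 0 < a) (hcl : closure S ∩ PB a = S)
    {v : ℝ × ℝ → ℝ} {U : Set (ℝ × ℝ)} (hU : IsOpen U) (h0 : (0 : ℝ × ℝ) ∈ U)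
    (hv : ContDiffOn ℝ 2 v U) (hv0 : v 0 = 0) {r : ℝ} (hr : 0 < r)
    (hco : ∀ p ∈ S, ‖p‖ < r → p 2 = v (prj p) → Coin S v p) {s : ℝ} (hs : 0 < s)
    (heq : ∀ x ∈ S, ‖x‖ < s → x 2 = v (prj x)) (h0S : (0 : E3) ∈ closure S) :
    ∃ κ > 0, ball (0 : ℝ × ℝ) κ ⊆ U ∧
      (∀ q ∈ ball (0 : ℝ × ℝ) κ \ {0}, lift v q 0 ∈ S ∧ ‖lift v q 0‖ < r) ∧
      ∃ t > 0, ∀ x : E3, ‖x‖ < t → prj x ∈ ball (0 : ℝ × ℝ) κ ∧
        (x ∈ closure S ↔ x 2 = v (prj x)) := by
  obtain ⟨κ, hκ, hκU, hκr, hdi⟩ := dichotomy ha hcl hU h0 hv hv0 hr hco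
  have hne : ∀ x ∈ S, x ≠ 0 := fun x hx => by
    have := hcl ▸ hx
    exact this.2.2
  have hprj0 : prj (0 : E3) = 0 := map_zero _
  have hnz : ∀ x : E3, x ≠ 0 → x 2 = v (prj x) → prj x ≠ 0 := by
    intro x hx0 hx h
    apply hx0
    have h1 := lift_eta v x
    rw [hx, sub_self, h] at h1
    rw [← h1]
    unfold lift
    rw [hv0, add_zero]
    exact vec_zero
  rcases hdi with hno | hyes
  · exfalso
    obtain ⟨x, hxb, hxS⟩ := mem_closure_iff_nhds.1 h0S _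
      (ball_mem_nhds (0 : E3) (show 0 < min s κ by positivity))
    rw [mem_ball_zero_iff] at hxb
    have h1 := heq x hxS (hxb.trans_le (min_le_left _ _))
    have h2 : prj x ∈ ball (0 : ℝ × ℝ) κ \ {0} := by
      refine ⟨mem_ball_zero_iff.2 ((norm_prj_le x).trans_lt (hxb.trans_le (min_le_right _ _))), ?_⟩
      exact hnz x (hne x hxS) h1
    apply hno _ h2
    have h3 := lift_eta v x
    rw [h1, sub_self] at h3
    rwa [h3]
  · refine ⟨κ, hκ, hκU, fun q hq => ⟨hyes q hq, hκr q hq.1⟩, min (min s κ) a, by positivity,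
      fun x hx => ?_⟩
    have hxs : ‖x‖ < s := hx.trans_le ((min_le_left _ _).trans (min_le_left _ _))
    have hxκ : ‖x‖ < κ := hx.trans_le ((min_le_left _ _).trans (min_le_right _ _))
    have hxa : ‖x‖ < a := hx.trans_le (min_le_right _ _)
    have hpk : prj x ∈ ball (0 : ℝ × ℝ) κ := mem_ball_zero_iff.2 ((norm_prj_le x).trans_lt hxκ)
    refine ⟨hpk, ?_⟩
    by_cases hx0 : x = 0
    · subst hx0
      rw [hprj0, hv0]
      exact ⟨fun _ => rfl, fun _ => h0S⟩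
    · constructor
      · intro hxc
        refine heq x ?_ hxs
        rw [← hcl]
        exact ⟨hxc, mem_ball_zero_iff.2 hxa, hx0⟩
      · intro hxv
        have h3 := lift_eta v x
        rw [hxv, sub_self] at h3
        rw [← h3]
        exact subset_closure (hyes _ ⟨hpk, hnz x hx0 hxv⟩)

end H76.MS
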