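import Pool.Agent.H76.MS.Accum

/-!
# The barrier of Hopf
-/

set_option autoImplicit false

open Filter Topology Metric

noncomputable section

namespace H76.MS

/-- A minimal surface does not touch the graph of a strict subsolution from above. -/
theorem noTouch {S : Set E3} (hS : IsMin S) {w : ℝ × ℝ → ℝ} {p : E3} (hp : p ∈ S)
    (hp0 : p ≠ 0) (hw : ContDiffAt ℝ 2 w (prj p))
    (hmin : IsLocalMinOn (fun x : E3 => x 2 - w (prj x)) S p) : MSE w (prj p) ≤ 0 := by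
  have hbF : (fun x : E3 => x 2 - w (prj x)) = bF w 0 0 := by
    funext x
    simp [bF]
  rw [hbF] at hmin
  obtain ⟨F'', hF', hF2⟩ := bF'_deriv (ε := 0) (K := 0) hw hp0
  have hF : ∀ᶠ x in 𝓝 p, HasFDerivAt (bF w 0 0) (bF' w 0 0 x) x := by
    have e1 : ∀ᶠ x in 𝓝 p, ContDiffAt ℝ 2 w (prj x) :=
      prj.continuous.continuousAt.eventually (hw.eventually (by simp))
    filter_upwards [e1, isOpen_ne.mem_nhds hp0] with x hx1 hx2
    exact bF_deriv (hx1.differentiableAt (by norm_num)) hx2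
  obtain ⟨n, hn1, E, hE1, hE2, hE3⟩ := surfTest hS hp hF hF' hmin
  obtain ⟨t0, t1, t2, t3⟩ := trace_ids hE3
  set g := nrmV w (prj p) with hg
  have hgr : ∀ u, bF' w 0 0 p u = inner ℝ g u := by
    intro u
    rw [hg, inner_nrmV]
    simp [bF', prj_apply]
  have hn0 : 0 < ‖n‖ ^ 2 := by positivity
  have hpar : ‖n‖ ^ 2 * ‖g‖ ^ 2 = (inner ℝ n g) ^ 2 := by
    have h1 := hE3 g g
    have h2 : ∑ k, inner ℝ g (E k) * inner ℝ g (E k) = 0 := by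
      apply Finset.sum_eq_zero
      intro k _
      rw [← hgr, hE1 k, zero_mul]
    rw [h2, real_inner_self_eq_norm_sq] at h1
    linarith
  have hμ : (inner ℝ n g / ‖n‖ ^ 2 : ℝ) • n = g := by
    rw [← sub_eq_zero, ← norm_eq_zero, ← sq_eq_zero_iff, norm_sub_sq_real, norm_smul,
      real_inner_smul_left, mul_pow, Real.norm_eq_abs, sq_abs]
    field_simp
    rw [← hpar]
    ring
  set μ : ℝ := inner ℝ n g / ‖n‖ ^ 2 with hμd
  have hsum : ∑ k, F'' (E k) (E k) =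
      -Hq (fderiv ℝ (fderiv ℝ w) (prj p) (1, 0) (1, 0))
      (fderiv ℝ (fderiv ℝ w) (prj p) (0, 1) (1, 0))
      (fderiv ℝ (fderiv ℝ w) (prj p) (0, 1) (0, 1)) n := by
    simp only [hF2, quad_eta hw]
    rw [Fin.sum_univ_three]
    rw [Fin.sum_univ_three] at t0 t1 t2
    unfold Hq
    rw [← t0, ← t2]
    have t1' : n 0 * n 1 = -(E 0 0 * E 0 1 + E 1 0 * E 1 1 + E 2 0 * E 2 1) := by linarith
    rw [t1']
    ring
  rw [hsum] at hE2
  have hHg := Hq_nrmV hw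
  rw [← hg, ← hμ] at hHg
  rw [← hHg]
  have h7 : Hq (fderiv ℝ (fderiv ℝ w) (prj p) (1, 0) (1, 0))
      (fderiv ℝ (fderiv ℝ w) (prj p) (0, 1) (1, 0))
      (fderiv ℝ (fderiv ℝ w) (prj p) (0, 1) (0, 1)) (μ • n) =
      μ ^ 2 * Hq (fderiv ℝ (fderiv ℝ w) (prj p) (1, 0) (1, 0))
      (fderiv ℝ (fderiv ℝ w) (prj p) (0, 1) (1, 0))
      (fderiv ℝ (fderiv ℝ w) (prj p) (0, 1) (0, 1)) n := by
    unfold Hq
    simp only [PiLp.smul_apply, smul_eq_mul]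
    ring
  rw [h7]
  nlinarith [sq_nonneg μ]

/-- the squared distance in the plane -/
def sqd (c q : ℝ × ℝ) : ℝ := (q.1 - c.1) ^ 2 + (q.2 - c.2) ^ 2

/-- the barrier of Hopf -/
def hf (α β : ℝ) (c q : ℝ × ℝ) : ℝ := Real.exp (-(α * sqd c q)) - β

/-- its derivative -/
def hf' (α : ℝ) (c q : ℝ × ℝ) : ℝ × ℝ →L[ℝ] ℝ :=
  (-(2 * α) * Real.exp (-(α * sqd c q))) •
    ((q.1 - c.1) • ContinuousLinearMap.fst ℝ ℝ ℝ + (q.2 - c.2) • ContinuousLinearMap.snd ℝ ℝ ℝ)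

theorem sqd_deriv (c q : ℝ × ℝ) : HasFDerivAt (sqd c)
    ((2 * (q.1 - c.1)) • ContinuousLinearMap.fst ℝ ℝ ℝ +
      (2 * (q.2 - c.2)) • ContinuousLinearMap.snd ℝ ℝ ℝ) q := by
  have h1 : HasFDerivAt (fun q : ℝ × ℝ => q.1 - c.1) (ContinuousLinearMap.fst ℝ ℝ ℝ) q :=
    (ContinuousLinearMap.fst ℝ ℝ ℝ).hasFDerivAt.sub_const _
  have h2 : HasFDerivAt (fun q : ℝ × ℝ => q.2 - c.2) (ContinuousLinearMap.snd ℝ ℝ ℝ) q :=
    (ContinuousLinearMap.snd ℝ ℝ ℝ).hasFDerivAt.sub_const _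
  have h3 := (h1.pow 2).add (h2.pow 2)
  refine h3.congr_fderiv ?_
  ext <;> simp

theorem exp_sqd_deriv (α : ℝ) (c q : ℝ × ℝ) :
    HasFDerivAt (fun q => Real.exp (-(α * sqd c q))) (hf' α c q) q := by
  have h1 := ((sqd_deriv c q).const_mul α).neg.exp
  refine h1.congr_fderiv ?_
  ext
  · simp [hf']; ring
  · simp [hf']; ring

theorem hf_deriv (α β : ℝ) (c q : ℝ × ℝ) : HasFDerivAt (hf α β c) (hf' α c q) q :=
  (exp_sqd_deriv α c q).sub_const β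

theorem hf'_deriv (α : ℝ) (c q : ℝ × ℝ) : ∃ D : ℝ × ℝ →L[ℝ] ℝ × ℝ →L[ℝ] ℝ,
    HasFDerivAt (hf' α c) D q ∧ ∀ u t : ℝ × ℝ, D u t = Real.exp (-(α * sqd c q)) *
      (4 * α ^ 2 * ((q.1 - c.1) * u.1 + (q.2 - c.2) * u.2) *
        ((q.1 - c.1) * t.1 + (q.2 - c.2) * t.2) - 2 * α * (u.1 * t.1 + u.2 * t.2)) := by
  have h1 : HasFDerivAt (fun q : ℝ × ℝ => q.1 - c.1) (ContinuousLinearMap.fst ℝ ℝ ℝ) q :=
    (ContinuousLinearMap.fst ℝ ℝ ℝ).hasFDerivAt.sub_const _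
  have h2 : HasFDerivAt (fun q : ℝ × ℝ => q.2 - c.2) (ContinuousLinearMap.snd ℝ ℝ ℝ) q :=
    (ContinuousLinearMap.snd ℝ ℝ ℝ).hasFDerivAt.sub_const _
  have h3 := (exp_sqd_deriv α c q).const_mul (-(2 * α))
  have h4 := h1.smul (hasFDerivAt_const (ContinuousLinearMap.fst ℝ ℝ ℝ) q)
  have h5 := h2.smul (hasFDerivAt_const (ContinuousLinearMap.snd ℝ ℝ ℝ) q)
  have h6 := h3.smul (h4.add h5)
  refine ⟨_, h6, fun u t => ?_⟩
  simp [hf']
  ring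

theorem hf_contDiff (α β : ℝ) (c : ℝ × ℝ) : ContDiff ℝ 2 (hf α β c) := by
  unfold hf sqd
  fun_prop

/-- the algebra of the barrier of Hopf -/
theorem hopf_alg {L C0 α k p q r s t y1 y2 δ2 : ℝ} (hL : 0 ≤ L) (hp : |p| ≤ L) (hq : |q| ≤ L)
    (hr : |r| ≤ C0) (hs : |s| ≤ C0) (ht : |t| ≤ C0) (hα : 0 < α) (hk : 0 < k)
    (hk1 : 2 * α * k ≤ 1) (hY : δ2 ≤ y1 ^ 2 + y2 ^ 2) (hY1 : y1 ^ 2 + y2 ^ 2 ≤ 1)
    (hm : 0 ≤ (1 + q ^ 2) * r - 2 * p * q * s + (1 + p ^ 2) * t)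
    (hbig : (1 + (L + 1) ^ 2) + 2 * C0 * (2 * L + 1) < α * δ2) :
    0 < (1 + (q - 2 * α * k * y2) ^ 2) * (r + k * (4 * α ^ 2 * y1 ^ 2 - 2 * α)) -
      2 * (p - 2 * α * k * y1) * (q - 2 * α * k * y2) * (s + k * (4 * α ^ 2 * (y1 * y2))) +
      (1 + (p - 2 * α * k * y1) ^ 2) * (t + k * (4 * α ^ 2 * y2 ^ 2 - 2 * α)) := by
  have hC : 0 ≤ C0 := (abs_nonneg _).trans hr
  have hy1 : |y1| ≤ 1 := abs_le_one_iff_mul_self_le_one.2 (by nlinarith [sq_nonneg y2])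
  have hy2 : |y2| ≤ 1 := abs_le_one_iff_mul_self_le_one.2 (by nlinarith [sq_nonneg y1])
  set κ := 2 * α * k with hκ
  have hκ0 : 0 < κ := by positivity
  set P := p - κ * y1 with hP
  set Q := q - κ * y2 with hQ
  have e1 : |κ * y1| ≤ κ := by
    rw [abs_mul, abs_of_pos hκ0]; nlinarith
  have e2 : |κ * y2| ≤ κ := by
    rw [abs_mul, abs_of_pos hκ0]; nlinarith
  have hPL : |P| ≤ L + 1 := by
    have := abs_sub p (κ * y1)
    rw [hP]; linarith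
  have hQL : |Q| ≤ L + 1 := by
    have := abs_sub q (κ * y2)
    rw [hQ]; linarith
  -- the variation of the coefficients
  have f1 : |Q ^ 2 - q ^ 2| ≤ κ * (2 * L + 1) := by
    have : Q ^ 2 - q ^ 2 = -(κ * y2) * (Q + q) := by rw [hQ]; ring
    rw [this, abs_mul, abs_neg]
    have h1 : |Q + q| ≤ 2 * L + 1 := (abs_add_le _ _).trans (by linarith)
    exact mul_le_mul e2 h1 (abs_nonneg _) hκ0.le
  have f2 : |P ^ 2 - p ^ 2| ≤ κ * (2 * L + 1) := by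
    have : P ^ 2 - p ^ 2 = -(κ * y1) * (P + p) := by rw [hP]; ring
    rw [this, abs_mul, abs_neg]
    have h1 : |P + p| ≤ 2 * L + 1 := (abs_add_le _ _).trans (by linarith)
    exact mul_le_mul e1 h1 (abs_nonneg _) hκ0.le
  have f3 : |P * Q - p * q| ≤ κ * (2 * L + 1) := by
    have : P * Q - p * q = -(κ * y1) * Q + p * -(κ * y2) := by rw [hP, hQ]; ring
    rw [this]
    refine (abs_add_le _ _).trans ?_
    rw [abs_mul, abs_mul, abs_neg, abs_neg]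
    have h1 := mul_le_mul e1 hQL (abs_nonneg _) hκ0.le
    have h2 := mul_le_mul hp e2 (abs_nonneg _) hL
    nlinarith
  have g1 : |(Q ^ 2 - q ^ 2) * r| ≤ κ * (2 * L + 1) * C0 := by
    rw [abs_mul]; exact mul_le_mul f1 hr (abs_nonneg _) (by positivity)
  have g2 : |(P ^ 2 - p ^ 2) * t| ≤ κ * (2 * L + 1) * C0 := by
    rw [abs_mul]; exact mul_le_mul f2 ht (abs_nonneg _) (by positivity)
  have g3 : |(P * Q - p * q) * s| ≤ κ * (2 * L + 1) * C0 := by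
    rw [abs_mul]; exact mul_le_mul f3 hs (abs_nonneg _) (by positivity)
  have h1 := (abs_le.1 g1).1
  have h2 := (abs_le.1 g2).1
  have h3 := (abs_le.1 g3).2
  have hPs : P ^ 2 ≤ (L + 1) ^ 2 := by
    rw [← sq_abs P]; gcongr
  have hQs : Q ^ 2 ≤ (L + 1) ^ 2 := by
    rw [← sq_abs Q]; gcongr
  have hexp : (1 + Q ^ 2) * (r + k * (4 * α ^ 2 * y1 ^ 2 - 2 * α)) -
      2 * P * Q * (s + k * (4 * α ^ 2 * (y1 * y2))) +
      (1 + P ^ 2) * (t + k * (4 * α ^ 2 * y2 ^ 2 - 2 * α)) =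
      ((1 + q ^ 2) * r - 2 * p * q * s + (1 + p ^ 2) * t) +
      ((Q ^ 2 - q ^ 2) * r - 2 * ((P * Q - p * q) * s) + (P ^ 2 - p ^ 2) * t) +
      κ * (2 * α * (y1 ^ 2 + y2 ^ 2 + (Q * y1 - P * y2) ^ 2) - (2 + P ^ 2 + Q ^ 2)) := by
    rw [hκ]; ring
  rw [hexp]
  have h4 : α * δ2 ≤ α * (y1 ^ 2 + y2 ^ 2) := by gcongr
  have h5 : 0 ≤ α * (Q * y1 - P * y2) ^ 2 := by positivity
  have h6 : 0 < κ * (2 * α * (y1 ^ 2 + y2 ^ 2 + (Q * y1 - P * y2) ^ 2) - (2 + P ^ 2 + Q ^ 2) -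
      4 * ((2 * L + 1) * C0)) := by
    apply mul_pos hκ0
    nlinarith
  nlinarith

/-- the barrier is a strict subsolution -/
theorem hopf_mse {v : ℝ × ℝ → ℝ} {q c : ℝ × ℝ} (hv : ContDiffAt ℝ 2 v q)
    (hQ : 0 ≤ MSE v q) {L C0 α β ε δ2 : ℝ} (hL : 0 ≤ L)
    (h1 : |fderiv ℝ v q (1, 0)| ≤ L) (h2 : |fderiv ℝ v q (0, 1)| ≤ L)
    (h11 : |fderiv ℝ (fderiv ℝ v) q (1, 0) (1, 0)| ≤ C0)
    (h12 : |fderiv ℝ (fderiv ℝ v) q (0, 1) (1, 0)| ≤ C0)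
    (h22 : |fderiv ℝ (fderiv ℝ v) q (0, 1) (0, 1)| ≤ C0) (hα : 0 < α) (hε : 0 < ε)
    (hε1 : 2 * α * ε ≤ 1) (hY : δ2 ≤ sqd c q) (hY1 : sqd c q ≤ 1)
    (hbig : (1 + (L + 1) ^ 2) + 2 * C0 * (2 * L + 1) < α * δ2) :
    0 < MSE (fun q => v q + ε * hf α β c q) q := by
  have hw : ContDiffAt ℝ 2 (fun q => v q + ε * hf α β c q) q :=
    hv.add (contDiffAt_const.mul (hf_contDiff α β c).contDiffAt)
  have hd : ∀ᶠ q' in 𝓝 q, fderiv ℝ (fun q => v q + ε * hf α β c q) q' =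
      fderiv ℝ v q' + ε • hf' α c q' := by
    filter_upwards [hv.eventually (by simp)] with q' hq'
    have e1 := (hq'.differentiableAt (by norm_num)).hasFDerivAt
    exact (e1.add ((hf_deriv α β c q').const_mul ε)).fderiv
  obtain ⟨D, hD, hD2⟩ := hf'_deriv α c q
  have hdd : fderiv ℝ (fderiv ℝ (fun q => v q + ε * hf α β c q)) q =
      fderiv ℝ (fderiv ℝ v) q + ε • D := by
    rw [Filter.EventuallyEq.fderiv_eq hd]
    have e1 := ((hv.fderiv_right (m := 1) (by norm_num)).differentiableAt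
      (by norm_num)).hasFDerivAt
    exact (e1.add (hD.const_smul ε)).fderiv
  unfold MSE
  rw [fderiv_dir hw, fderiv_dir hw, fderiv_dir hw, hdd, hd.self_of_nhds]
  simp only [ContinuousLinearMap.add_apply, ContinuousLinearMap.smul_apply, smul_eq_mul, hD2]
  have hk : 0 < ε * Real.exp (-(α * sqd c q)) := mul_pos hε (Real.exp_pos _)
  have hsq : 0 ≤ sqd c q := by unfold sqd; positivity
  have hk1 : 2 * α * (ε * Real.exp (-(α * sqd c q))) ≤ 1 := by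
    have : Real.exp (-(α * sqd c q)) ≤ 1 := by
      rw [Real.exp_le_one_iff]
      have := mul_nonneg hα.le hsq
      linarith
    have h3 : 2 * α * ε * Real.exp (-(α * sqd c q)) ≤ 2 * α * ε * 1 := by gcongr
    nlinarith
  have hm : 0 ≤ (1 + (fderiv ℝ v q (0, 1)) ^ 2) * fderiv ℝ (fderiv ℝ v) q (1, 0) (1, 0) -
      2 * fderiv ℝ v q (1, 0) * fderiv ℝ v q (0, 1) * fderiv ℝ (fderiv ℝ v) q (0, 1) (1, 0) +
      (1 + (fderiv ℝ v q (1, 0)) ^ 2) * fderiv ℝ (fderiv ℝ v) q (0, 1) (0, 1) := by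
    have := hQ
    unfold MSE at this
    rwa [fderiv_dir hv, fderiv_dir hv, fderiv_dir hv] at this
  have := hopf_alg (y1 := q.1 - c.1) (y2 := q.2 - c.2) hL h1 h2 h11 h12 h22 hα hk hk1 hY hY1 hm
    hbig
  refine lt_of_lt_of_eq this ?_
  simp [hf']
  ring

end H76.MS
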