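import Pool.Agent.H76.MS.Final

/-!
# Minimal surfaces near a puncture which do not cross a disc through the puncture: assembly
-/

set_option autoImplicit false

open Filter Topology Metric

noncomputable section

namespace H76.MS

/-- the punctured ball is invariant -/
theorem hcl_image {S : Set E3} {a : ℝ} (T : E3 ≃ₗᵢ[ℝ] E3) (hcl : closure S ∩ PB a = S) :
    closure (T '' S) ∩ PB a = T '' S := by
  have h1 : closure (T '' S) = T '' closure S := (T.toHomeomorph.image_closure S).symm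
  have h2 : T '' PB a = PB a := by
    ext x
    constructor
    · rintro ⟨y, ⟨hy, hy0⟩, rfl⟩
      refine ⟨?_, ?_⟩
      · rw [mem_ball_zero_iff, T.norm_map]; exact mem_ball_zero_iff.1 hy
      · intro h
        apply hy0
        have h' : T y = 0 := h
        rw [Set.mem_singleton_iff]
        rw [← norm_eq_zero, ← T.norm_map, h', norm_zero]
    · rintro ⟨hx, hx0⟩
      refine ⟨T.symm x, ⟨?_, ?_⟩, T.apply_symm_apply x⟩
      · rw [mem_ball_zero_iff, T.symm.norm_map]; exact mem_ball_zero_iff.1 hx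
      · intro h
        apply hx0
        have h' : T.symm x = 0 := h
        rw [Set.mem_singleton_iff, ← norm_eq_zero, ← T.symm.norm_map, h', norm_zero]
  rw [h1]
  nth_rewrite 1 [← h2]
  rw [← Set.image_inter T.injective, hcl]

/-- the reflection at the horizontal plane -/
def flip : E3 ≃ₗᵢ[ℝ] E3 where
  toFun x := vec (x 0) (x 1) (-x 2)
  invFun x := vec (x 0) (x 1) (-x 2)
  left_inv x := by
    ext i; fin_cases i <;> simp [vec]
  right_inv x := by
    ext i; fin_cases i <;> simp [vec]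
  map_add' x y := by
    ext i; fin_cases i <;> simp [vec]; ring
  map_smul' c x := by
    ext i; fin_cases i <;> simp [vec]
  norm_map' x := by
    have h : ∀ y : E3, ‖y‖ = Real.sqrt (y 0 ^ 2 + y 1 ^ 2 + y 2 ^ 2) := by
      intro y
      rw [← norm_E3, Real.sqrt_sq (norm_nonneg _)]
    rw [h, h x]
    congr 1
    simp [vec]

theorem flip_apply (x : E3) : flip x = vec (x 0) (x 1) (-x 2) := rfl

theorem prj_flip (x : E3) : prj (flip x) = prj x := rfl

theorem flip_two (x : E3) : (flip x) 2 = -x 2 := rfl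

theorem flip_flip (x : E3) : flip (flip x) = x := flip.left_inv x

theorem MSE_neg (v : ℝ × ℝ → ℝ) (q : ℝ × ℝ) : MSE (fun x => -v x) q = -MSE v q := by
  unfold MSE
  have h1 : ∀ r w, fderiv ℝ (fun x => -v x) r w = -fderiv ℝ v r w := by
    intro r w
    rw [fderiv_fun_neg]
    rfl
  simp only [h1]
  have h2 : ∀ w u : ℝ × ℝ, fderiv ℝ (fun r => -fderiv ℝ v r w) q u =
      -fderiv ℝ (fun r => fderiv ℝ v r w) q u := by
    intro w u
    rw [fderiv_fun_neg]
    rfl
  simp only [h2]
  ring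

/-- near a contact point where `S` is weakly below the graph of a solution, `S` is the graph -/
theorem localEq_below {S W0 : Set E3} (hW0 : IsOpen W0) (h00 : (0 : E3) ∉ S)
    (hcl : closure S ∩ W0 ⊆ S) (hS : IsMin S)
    {v : ℝ × ℝ → ℝ} {U : Set (ℝ × ℝ)} (hU : IsOpen U) (hv : ContDiffOn ℝ 2 v U)
    (hQ : ∀ q ∈ U, MSE v q ≤ 0)
    (hab : ∀ x ∈ S, x ∈ W0 → x 2 ≤ v (prj x)) {p : E3} (hq0 : prj p ∈ U)
    (hp : p ∈ S) (hpW : p ∈ W0) (hpv : p 2 = v (prj p)) : Coin S v p := by
  have hclI : closure (flip '' S) = flip '' closure S := (flip.toHomeomorph.image_closure S).symm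
  obtain ⟨W, hW, hpW', hWs⟩ := localEq (S := flip '' S) (W0 := flip '' W0)
    (v := fun q => -v q) (U := U) (p := flip p)
    (flip.toHomeomorph.isOpenMap W0 hW0)
    (by
      rintro ⟨y, hy, hy0⟩
      have : y = 0 := by
        rw [← norm_eq_zero, ← flip.norm_map, hy0, norm_zero]
      exact h00 (this ▸ hy))
    (by
      rw [hclI, ← Set.image_inter flip.injective]
      exact Set.image_mono hcl)
    (hS.image flip) hU hv.neg
    (fun q hq => by rw [MSE_neg]; have := hQ q hq; linarith)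
    (by
      rintro _ ⟨x, hx, rfl⟩ ⟨y, hy, hyx⟩
      have : y = x := flip.injective hyx
      subst this
      rw [prj_flip, flip_two]
      have := hab y hx hy
      linarith)
    (by rw [prj_flip]; exact hq0) ⟨p, hp, rfl⟩ ⟨p, hpW, rfl⟩
    (by rw [prj_flip, flip_two, hpv])
  refine ⟨flip ⁻¹' W, hW.preimage flip.continuous, hpW', fun x hx => ?_⟩
  have h1 := hWs (flip x) hx
  rw [prj_flip, flip_two] at h1
  constructor
  · intro hxS
    have := h1.1 ⟨x, hxS, rfl⟩
    linarith
  · intro hxv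
    obtain ⟨y, hy, hyx⟩ := h1.2 (by rw [hxv])
    have : y = x := flip.injective hyx
    exact this ▸ hy

/-- the hypothesis on the surface and the disc: the surface is on one side of the graph of a
subsolution or it does not cross the graph of a solution -/
def NoCross (S : Set E3) (v : ℝ × ℝ → ℝ) (U : Set (ℝ × ℝ)) (r : ℝ) : Prop :=
  ((∀ q ∈ U, 0 ≤ MSE v q) ∧ ∀ x ∈ S, ‖x‖ < r → v (prj x) ≤ x 2) ∨
  ((∀ q ∈ U, MSE v q = 0) ∧ ∀ p ∈ S, ‖p‖ < r → p 2 = v (prj p) →
    (∀ᶠ x in 𝓝 p, x ∈ S → v (prj x) ≤ x 2) ∨ (∀ᶠ x in 𝓝 p, x ∈ S → x 2 ≤ v (prj x)))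

theorem coin_of_above {S : Set E3} {a : ℝ} (hcl : closure S ∩ PB a = S)
    (hS : IsMin S) {v : ℝ × ℝ → ℝ} {U : Set (ℝ × ℝ)} (hU : IsOpen U)
    (hv : ContDiffOn ℝ 2 v U) (hQ : ∀ q ∈ U, 0 ≤ MSE v q) {p : E3} (hp : p ∈ S)
    (hpU : prj p ∈ U) (hpv : p 2 = v (prj p))
    (hab : ∀ᶠ x in 𝓝 p, x ∈ S → v (prj x) ≤ x 2) : Coin S v p := by
  have hne : ∀ x ∈ S, x ∈ PB a := fun x hx => by
    have := hcl ▸ hx
    exact this.2
  obtain ⟨W, hWs, hW, hpW⟩ := _root_.eventually_nhds_iff.1 hab
  have hPo : IsOpen (PB a) := isOpen_ball.sdiff isClosed_singleton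
  refine localEq (W0 := W ∩ PB a) (hW.inter hPo) (fun h => (hne _ h).2 rfl) ?_ hS hU hv hQ ?_
    hpU hp ⟨hpW, hne p hp⟩ hpv
  · rintro x ⟨hx, _, hxP⟩
    rw [← hcl]
    exact ⟨hx, hxP⟩
  · rintro x hx ⟨hxW, _⟩
    exact hWs x hxW hx

theorem coin_of_below {S : Set E3} {a : ℝ} (hcl : closure S ∩ PB a = S)
    (hS : IsMin S) {v : ℝ × ℝ → ℝ} {U : Set (ℝ × ℝ)} (hU : IsOpen U)
    (hv : ContDiffOn ℝ 2 v U) (hQ : ∀ q ∈ U, MSE v q ≤ 0) {p : E3} (hp : p ∈ S)
    (hpU : prj p ∈ U) (hpv : p 2 = v (prj p))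
    (hab : ∀ᶠ x in 𝓝 p, x ∈ S → x 2 ≤ v (prj x)) : Coin S v p := by
  have hne : ∀ x ∈ S, x ∈ PB a := fun x hx => by
    have := hcl ▸ hx
    exact this.2
  obtain ⟨W, hWs, hW, hpW⟩ := _root_.eventually_nhds_iff.1 hab
  have hPo : IsOpen (PB a) := isOpen_ball.sdiff isClosed_singleton
  refine localEq_below (W0 := W ∩ PB a) (hW.inter hPo) (fun h => (hne _ h).2 rfl) ?_ hS hU hv hQ
    ?_ hpU hp ⟨hpW, hne p hp⟩ hpv
  · rintro x ⟨hx, _, hxP⟩
    rw [← hcl]
    exact ⟨hx, hxP⟩
  · rintro x hx ⟨hxW, _⟩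
    exact hWs x hxW hx

/-- the main theorem in adapted coordinates -/
theorem main_std {S : Set E3} {a : ℝ} (ha : 0 < a) (hcl : closure S ∩ PB a = S)
    (hS : IsMin S) {v : ℝ × ℝ → ℝ} {U : Set (ℝ × ℝ)} (hU : IsOpen U) (h0 : (0 : ℝ × ℝ) ∈ U)
    (hv : ContDiffOn ℝ 2 v U) (hv0 : v 0 = 0) {r : ℝ} (hr : 0 < r) (H : NoCross S v U r)
    (h0S : (0 : E3) ∈ closure S) :
    ∃ κ > 0, ball (0 : ℝ × ℝ) κ ⊆ U ∧ (∀ q ∈ ball (0 : ℝ × ℝ) κ, MSE v q = 0) ∧
      ∃ t > 0, ∀ x : E3, ‖x‖ < t → prj x ∈ ball (0 : ℝ × ℝ) κ ∧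
        (x ∈ closure S ↔ x 2 = v (prj x)) := by
  have hprj0 : prj (0 : E3) = 0 := map_zero _
  have hne : ∀ x ∈ S, x ∈ PB a := fun x hx => by
    have := hcl ▸ hx
    exact this.2
  obtain ⟨κ0, hκ0, hκU⟩ : ∃ κ > 0, ∀ x : E3, ‖x‖ < κ → prj x ∈ U := by
    have h1 : ∀ᶠ x in 𝓝 (0 : E3), prj x ∈ U := by
      have : Tendsto prj (𝓝 (0 : E3)) (𝓝 (prj 0)) := prj.continuous.continuousAt
      rw [hprj0] at this
      exact this.eventually (hU.mem_nhds h0)
    obtain ⟨κ, hκ, hs⟩ := Metric.eventually_nhds_iff_ball.1 h1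
    exact ⟨κ, hκ, fun x hx => hs x (by rwa [mem_ball_zero_iff])⟩
  set r0 := min r κ0 with hr0
  have hr00 : 0 < r0 := by positivity
  rcases H with ⟨hQ, hab⟩ | ⟨hQ, hnc⟩
  · -- one-sided case
    have hevab : ∀ p : E3, ‖p‖ < r → ∀ᶠ x in 𝓝 p, x ∈ S → v (prj x) ≤ x 2 := by
      intro p hpr
      filter_upwards [continuous_norm.continuousAt.eventually (eventually_lt_nhds hpr)] with x hx hxS
      exact hab x hxS hx
    have hco : ∀ p ∈ S, ‖p‖ < r0 → p 2 = v (prj p) → Coin S v p := by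
      intro p hp hpr hpv
      exact coin_of_above hcl hS hU hv hQ hp (hκU p (hpr.trans_le (min_le_right _ _))) hpv
        (hevab p (hpr.trans_le (min_le_left _ _)))
    obtain ⟨s, hs, hss⟩ := above_empty ha hcl hS hU h0 hv hv0 hQ hr00 hco
    obtain ⟨κ, hκ, hκU', hin, t, ht, hts⟩ := outcome ha hcl hU h0 hv hv0 hr00 hco
      (s := min s r0) (by positivity) (fun x hx hxs => le_antisymm
        (hss x hx (hxs.trans_le (min_le_left _ _)))
        (hab x hx (hxs.trans_le ((min_le_right _ _).trans (min_le_left _ _))))) h0S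
    have hM : ∀ q ∈ ball (0 : ℝ × ℝ) κ \ {0}, MSE v q = 0 := by
      intro q hq
      refine le_antisymm ?_ (hQ q (hκU' hq.1))
      obtain ⟨g1, g2⟩ := hin q hq
      have g3 := noTouch (w := v) hS g1 (fun h => (hne _ g1).2 h)
        (hv.contDiffAt (hU.mem_nhds (hκU' hq.1))) ?_
      · rwa [prj_lift] at g3
      · unfold IsLocalMinOn IsMinFilter
        rw [eventually_nhdsWithin_iff]
        filter_upwards [hevab _ (g2.trans_le (min_le_left _ _))] with x hx hxS
        rw [prj_lift, lift_two, add_zero, sub_self]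
        have := hx hxS
        linarith
    refine ⟨κ, hκ, hκU', fun q hq => ?_, t, ht, hts⟩
    by_cases hq0 : q = 0
    · subst hq0
      -- continuity
      have h1 : ContDiffOn ℝ 1 (fderiv ℝ v) U := hv.fderiv_of_isOpen hU (by norm_num)
      have h2 : ContinuousOn (fderiv ℝ (fderiv ℝ v)) U :=
        (h1.fderiv_of_isOpen hU (m := 0) (by norm_num)).continuousOn
      have hd : ∀ w : ℝ × ℝ, ContinuousAt (fun q => fderiv ℝ v q w) 0 := fun w =>
        (h1.continuousOn.continuousAt (hU.mem_nhds h0)).clm_apply continuousAt_const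
      have hdd : ∀ w u : ℝ × ℝ,
          ContinuousAt (fun q => fderiv ℝ (fun r => fderiv ℝ v r w) q u) 0 := by
        intro w u
        have e1 : ContinuousAt (fun q => fderiv ℝ (fderiv ℝ v) q u w) 0 :=
          ((h2.continuousAt (hU.mem_nhds h0)).clm_apply continuousAt_const).clm_apply
            continuousAt_const
        refine e1.congr ?_
        filter_upwards [hU.mem_nhds h0] with q hq
        exact (fderiv_dir (hv.contDiffAt (hU.mem_nhds hq)) w u).symm
      have hc : ContinuousAt (MSE v) 0 := by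
        unfold MSE
        exact ((((continuousAt_const.add ((hd _).pow 2)).mul (hdd _ _))).sub
          (((continuousAt_const.mul (hd _)).mul (hd _)).mul (hdd _ _))).add
          ((continuousAt_const.add ((hd _).pow 2)).mul (hdd _ _))
      by_contra hcon
      have hev : ∀ᶠ q in 𝓝 (0 : ℝ × ℝ), MSE v q ≠ 0 := hc.eventually_ne hcon
      obtain ⟨δ, hδ, hδs⟩ := Metric.eventually_nhds_iff_ball.1 hev
      have hm : 0 < min δ κ / 2 := by positivity
      have hnorm : ‖((min δ κ / 2, (0 : ℝ)) : ℝ × ℝ)‖ = min δ κ / 2 := by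
        rw [Prod.norm_def]
        simp only [norm_zero, Real.norm_eq_abs, abs_of_pos hm]
        exact max_eq_left hm.le
      refine hδs (min δ κ / 2, 0) ?_ (hM (min δ κ / 2, 0) ⟨?_, ?_⟩)
      · rw [mem_ball_zero_iff, hnorm]
        have : min δ κ ≤ δ := min_le_left _ _
        linarith
      · rw [mem_ball_zero_iff, hnorm]
        have : min δ κ ≤ κ := min_le_right _ _
        linarith
      · intro h
        have h' := congrArg Prod.fst (Set.mem_singleton_iff.1 h)
        change min δ κ / 2 = 0 at h'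
        linarith
    · exact hM q ⟨hq, hq0⟩
  · -- the surface does not cross a minimal disc
    have hco : ∀ p ∈ S, ‖p‖ < r0 → p 2 = v (prj p) → Coin S v p := by
      intro p hp hpr hpv
      rcases hnc p hp (hpr.trans_le (min_le_left _ _)) hpv with h | h
      · exact coin_of_above hcl hS hU hv (fun q hq => (hQ q hq).ge) hp
          (hκU p (hpr.trans_le (min_le_right _ _))) hpv h
      · exact coin_of_below hcl hS hU hv (fun q hq => (hQ q hq).le) hp
          (hκU p (hpr.trans_le (min_le_right _ _))) hpv h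
    obtain ⟨s, hs, hss⟩ := above_empty ha hcl hS hU h0 hv hv0 (fun q hq => (hQ q hq).ge) hr00 hco
    obtain ⟨s', hs', hss'⟩ := above_empty ha (hcl_image flip hcl) (hS.image flip) hU h0 hv.neg
      (by change -v 0 = 0; rw [hv0, neg_zero])
      (fun q hq => by
        change 0 ≤ MSE (fun x => -v x) q
        rw [MSE_neg, hQ q hq, neg_zero]) hr00
      (by
        rintro _ ⟨p, hp, rfl⟩ hpr hpv
        rw [flip.norm_map] at hpr
        have hpv' : p 2 = v (prj p) := by
          rw [prj_flip, flip_two] at hpv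
          change -p 2 = -v (prj p) at hpv
          linarith
        obtain ⟨W, hW, hpW, hWs⟩ := hco p hp hpr hpv'
        refine ⟨flip ⁻¹' W, hW.preimage flip.continuous, ?_, fun x hx => ?_⟩
        · change flip (flip p) ∈ W
          rw [flip_flip]; exact hpW
        · have h1 := hWs (flip x) hx
          rw [prj_flip, flip_two] at h1
          constructor
          · rintro ⟨y, hy, rfl⟩
            rw [flip_flip] at h1
            have := h1.1 hy
            change (flip y) 2 = -v (prj (flip y))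
            linarith
          · intro hxv
            change x 2 = -v (prj x) at hxv
            exact ⟨flip x, h1.2 (by linarith), flip_flip x⟩)
    obtain ⟨κ, hκ, hκU', hin, t, ht, hts⟩ := outcome ha hcl hU h0 hv hv0 hr00 hco
      (s := min s s') (by positivity) (fun x hx hxs => le_antisymm
        (hss x hx (hxs.trans_le (min_le_left _ _)))
        (by
          have h1 := hss' (flip x) ⟨x, hx, rfl⟩
            (by rw [flip.norm_map]; exact hxs.trans_le (min_le_right _ _))
          rw [prj_flip, flip_two] at h1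
          change -x 2 ≤ -v (prj x) at h1
          linarith)) h0S
    exact ⟨κ, hκ, hκU', fun q hq => hQ q (hκU' hq), t, ht, hts⟩

end H76.MS
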