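import Pool.Agent.H76.MS.Barrier

/-!
# The barrier has no interior minimum on a minimal surface
-/

set_option autoImplicit false

open Filter Topology

noncomputable section

namespace H76.MS

/-- the upward normal of the graph of `v` at `q` -/
def nrmV (v : ℝ × ℝ → ℝ) (q : ℝ × ℝ) : E3 := vec (-fderiv ℝ v q (1, 0)) (-fderiv ℝ v q (0, 1)) 1

theorem Hq_nrmV {v : ℝ × ℝ → ℝ} {q : ℝ × ℝ} (hv : ContDiffAt ℝ 2 v q) :
    Hq (fderiv ℝ (fderiv ℝ v) q (1, 0) (1, 0)) (fderiv ℝ (fderiv ℝ v) q (0, 1) (1, 0))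
      (fderiv ℝ (fderiv ℝ v) q (0, 1) (0, 1)) (nrmV v q) = MSE v q := by
  unfold Hq MSE nrmV
  rw [fderiv_dir hv, fderiv_dir hv, fderiv_dir hv]
  simp only [vec_apply]
  ring

theorem one_le_nrmV (v : ℝ × ℝ → ℝ) (q : ℝ × ℝ) : 1 ≤ ‖nrmV v q‖ := by
  have h1 : ‖nrmV v q‖ ^ 2 = (fderiv ℝ v q (1, 0)) ^ 2 + (fderiv ℝ v q (0, 1)) ^ 2 + 1 := by
    rw [norm_E3]
    unfold nrmV
    simp only [vec_apply]
    ring
  nlinarith [norm_nonneg (nrmV v q), sq_nonneg (fderiv ℝ v q (1, 0)),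
    sq_nonneg (fderiv ℝ v q (0, 1))]

theorem pair_eta (a b : ℝ) : ((a, b) : ℝ × ℝ) = a • ((1 : ℝ), (0 : ℝ)) + b • ((0 : ℝ), (1 : ℝ)) := by
  simp

theorem inner_nrmV (v : ℝ × ℝ → ℝ) (q : ℝ × ℝ) (u : E3) :
    inner ℝ (nrmV v q) u = u 2 - fderiv ℝ v q (prj u) := by
  rw [prj_apply, pair_eta (u 0) (u 1), map_add, map_smul, map_smul, inner_E3]
  unfold nrmV
  simp only [vec_apply, smul_eq_mul]
  ring

theorem quad_eta {v : ℝ × ℝ → ℝ} {q : ℝ × ℝ} (hv : ContDiffAt ℝ 2 v q) (u : E3) :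
    fderiv ℝ (fderiv ℝ v) q (prj u) (prj u) =
      fderiv ℝ (fderiv ℝ v) q (1, 0) (1, 0) * (u 0) ^ 2 +
      2 * fderiv ℝ (fderiv ℝ v) q (0, 1) (1, 0) * (u 0 * u 1) +
      fderiv ℝ (fderiv ℝ v) q (0, 1) (0, 1) * (u 1) ^ 2 := by
  rw [prj_apply, pair_eta (u 0) (u 1)]
  simp only [map_add, map_smul, ContinuousLinearMap.add_apply, ContinuousLinearMap.smul_apply,
    smul_eq_mul]
  rw [sndSymm hv (0, 1) (1, 0)]
  ring

/-- the traces -/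
theorem trace_ids {n : E3} {E : Fin 3 → E3}
    (h : ∀ a b : E3, ∑ k, inner ℝ a (E k) * inner ℝ b (E k) =
        ‖n‖ ^ 2 * inner ℝ a b - inner ℝ n a * inner ℝ n b) :
    (∑ k, (E k 0) ^ 2 = n 1 ^ 2 + n 2 ^ 2) ∧ (∑ k, E k 0 * E k 1 = -(n 0 * n 1)) ∧
    (∑ k, (E k 1) ^ 2 = n 0 ^ 2 + n 2 ^ 2) ∧ (∑ k, (E k 2) ^ 2 = n 0 ^ 2 + n 1 ^ 2) := by
  have h0 : ∀ u : E3, inner ℝ (vec 1 0 0) u = u 0 := fun u => by
    rw [inner_E3]; simp only [vec_apply]; ring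
  have h1 : ∀ u : E3, inner ℝ (vec 0 1 0) u = u 1 := fun u => by
    rw [inner_E3]; simp only [vec_apply]; ring
  have h2 : ∀ u : E3, inner ℝ (vec 0 0 1) u = u 2 := fun u => by
    rw [inner_E3]; simp only [vec_apply]; ring
  have c0 : ∀ u : E3, inner ℝ u (vec 1 0 0) = u 0 := fun u => by
    rw [real_inner_comm]; exact h0 u
  have c1 : ∀ u : E3, inner ℝ u (vec 0 1 0) = u 1 := fun u => by
    rw [real_inner_comm]; exact h1 u
  have c2 : ∀ u : E3, inner ℝ u (vec 0 0 1) = u 2 := fun u => by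
    rw [real_inner_comm]; exact h2 u
  have a00 := h (vec 1 0 0) (vec 1 0 0)
  have a01 := h (vec 1 0 0) (vec 0 1 0)
  have a11 := h (vec 0 1 0) (vec 0 1 0)
  have a22 := h (vec 0 0 1) (vec 0 0 1)
  simp only [h0, h1, h2, c0, c1, c2, norm_E3, vec_apply] at a00 a01 a11 a22
  refine ⟨?_, ?_, ?_, ?_⟩
  · simp only [sq] at a00 ⊢; linarith
  · linarith
  · simp only [sq] at a11 ⊢; linarith
  · simp only [sq] at a22 ⊢; linarith

/-- no interior minimum -/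
theorem noMin {S : Set E3} (hS : IsMin S) {v : ℝ × ℝ → ℝ} {p : E3} (hp : p ∈ S)
    (hv : ContDiffAt ℝ 2 v (prj p)) (hp0 : p ≠ 0) (hQ : 0 ≤ MSE v (prj p)) {C0 ε : ℝ}
    (hε : 0 < ε) (h11 : |fderiv ℝ (fderiv ℝ v) (prj p) (1, 0) (1, 0)| ≤ C0)
    (h12 : |fderiv ℝ (fderiv ℝ v) (prj p) (0, 1) (1, 0)| ≤ C0)
    (h22 : |fderiv ℝ (fderiv ℝ v) (prj p) (0, 1) (0, 1)| ≤ C0)
    (hR : ‖p‖ * (36 * C0 + 1) ≤ 1) : ¬ IsLocalMinOn (bF v ε (36 * C0 + 1)) S p := by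
  intro hmin
  set K := 36 * C0 + 1 with hK
  have hC : 0 ≤ C0 := (abs_nonneg _).trans h11
  have hKp : 0 < K := by positivity
  obtain ⟨F'', hF', hF2⟩ := bF'_deriv (ε := ε) (K := K) hv hp0
  have hF : ∀ᶠ x in 𝓝 p, HasFDerivAt (bF v ε K) (bF' v ε K x) x := by
    have e1 : ∀ᶠ x in 𝓝 p, ContDiffAt ℝ 2 v (prj x) :=
      prj.continuous.continuousAt.eventually (hv.eventually (by simp))
    filter_upwards [e1, isOpen_ne.mem_nhds hp0] with x hx1 hx2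
    exact bF_deriv (hx1.differentiableAt (by norm_num)) hx2
  obtain ⟨n, hn1, E, hE1, hE2, hE3⟩ := surfTest hS hp hF hF' hmin
  obtain ⟨t0, t1, t2, t3⟩ := trace_ids hE3
  set R := ‖p‖ with hRdef
  have hRp : 0 < R := norm_pos_iff.2 hp0
  have hsR : Real.sqrt (R ^ 2) = R := Real.sqrt_sq hRp.le
  set e : E3 := (2 * ε * hb1 K (R ^ 2)) • p with he
  set m := nrmV v (prj p) with hm
  set g := m + e with hg
  have hgr : ∀ u, bF' v ε K p u = inner ℝ g u := by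
    intro u
    rw [hg, he, inner_add_left, real_inner_smul_left, hm, inner_nrmV]
    simp [bF', prj_apply]
    left
    rw [hRdef]
    ring
  have hn0 : 0 < ‖n‖ ^ 2 := by positivity
  have hpar : ‖n‖ ^ 2 * ‖g‖ ^ 2 = (inner ℝ n g) ^ 2 := by
    have h1 := hE3 g g
    have h2 : ∑ k, inner ℝ g (E k) * inner ℝ g (E k) = 0 := by
      apply Finset.sum_eq_zero
      intro k _
      rw [← hgr, hE1 k, zero_mul]
    rw [h2, real_inner_self_eq_norm_sq] at h1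
    linarith
  have hμ : (inner ℝ n g / ‖n‖ ^ 2 : ℝ) • n = g := by
    rw [← sub_eq_zero, ← norm_eq_zero, ← sq_eq_zero_iff, norm_sub_sq_real, norm_smul,
      real_inner_smul_left, mul_pow, Real.norm_eq_abs, sq_abs]
    field_simp
    rw [← hpar]
    ring
  have hHm : 0 ≤ Hq (fderiv ℝ (fderiv ℝ v) (prj p) (1, 0) (1, 0))
      (fderiv ℝ (fderiv ℝ v) (prj p) (0, 1) (1, 0))
      (fderiv ℝ (fderiv ℝ v) (prj p) (0, 1) (0, 1)) m := by
    rw [hm, Hq_nrmV hv]; exact hQ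
  have hmain := Hq_main h11 h12 h22 hHm (one_le_nrmV v (prj p)) hμ
  have hsum : ∑ k, F'' (E k) (E k) =
      -Hq (fderiv ℝ (fderiv ℝ v) (prj p) (1, 0) (1, 0))
      (fderiv ℝ (fderiv ℝ v) (prj p) (0, 1) (1, 0))
      (fderiv ℝ (fderiv ℝ v) (prj p) (0, 1) (0, 1)) n +
      (4 * ε * hb2 K (R ^ 2) * (‖n‖ ^ 2 * R ^ 2 - (inner ℝ n p) ^ 2) +
        2 * ε * hb1 K (R ^ 2) * (2 * ‖n‖ ^ 2)) := by
    have s1 : ∑ k, (inner ℝ p (E k)) ^ 2 = ‖n‖ ^ 2 * R ^ 2 - (inner ℝ n p) ^ 2 := by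
      have := hE3 p p
      rw [real_inner_self_eq_norm_sq] at this
      rw [hRdef, sq (inner ℝ n p : ℝ), ← this]
      exact Finset.sum_congr rfl fun k _ => sq _
    have s2 : ∑ k, ‖E k‖ ^ 2 = 2 * ‖n‖ ^ 2 := by
      have : ∀ k, ‖E k‖ ^ 2 = (E k 0) ^ 2 + (E k 1) ^ 2 + (E k 2) ^ 2 := fun k => norm_E3 _
      simp only [this, Finset.sum_add_distrib, t0, t2, t3, norm_E3]
      ring
    rw [← s1, ← s2]
    simp only [hF2, quad_eta hv]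
    rw [Fin.sum_univ_three, Fin.sum_univ_three, Fin.sum_univ_three]
    rw [Fin.sum_univ_three] at t0 t1 t2
    unfold Hq
    rw [← t0, ← t2]
    have t1' : n 0 * n 1 = -(E 0 0 * E 0 1 + E 1 0 * E 1 1 + E 2 0 * E 2 1) := by linarith
    rw [t1']
    ring
  rw [hsum] at hE2
  have hh2 : 0 ≤ hb2 K (R ^ 2) := by
    unfold hb2
    rw [hsR]
    positivity
  have hh1 : hb1 K (R ^ 2) = -((1 / R + K) / (2 * R)) := by
    unfold hb1
    rw [hsR]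
    field_simp
    ring
  have hsh : R ^ 2 * hb2 K (R ^ 2) + hb1 K (R ^ 2) = -(K / (4 * R)) := by
    rw [hh1]
    unfold hb2
    rw [hsR]
    field_simp
    ring
  have hen : ‖e‖ = ε * (1 / R + K) := by
    rw [he, norm_smul, hh1, ← hRdef, Real.norm_eq_abs, abs_mul, abs_neg, abs_of_pos (by positivity),
      abs_of_pos (by positivity)]
    field_simp
  rw [hen] at hmain
  have h1 : 0 ≤ 4 * ε * hb2 K (R ^ 2) * (inner ℝ n p) ^ 2 := by positivity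
  have h2 : 0 ≤ 18 * C0 * (ε * (1 / R + K)) * ‖n‖ ^ 2 + 4 * ε * (-(K / (4 * R))) * ‖n‖ ^ 2 := by
    rw [← hsh]
    nlinarith
  have h3 : 18 * C0 * (ε * (1 / R + K)) * ‖n‖ ^ 2 + 4 * ε * (-(K / (4 * R))) * ‖n‖ ^ 2 =
      (ε * ‖n‖ ^ 2 / R) * (18 * C0 * (1 + R * K) - K) := by
    field_simp
    ring
  rw [h3] at h2
  have h4 : 0 < ε * ‖n‖ ^ 2 / R := by positivity
  have h5 : 18 * C0 * (1 + R * K) - K < 0 := by
    have : 18 * C0 * (R * K) ≤ 18 * C0 * 1 := mul_le_mul_of_nonneg_left hR (by positivity)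
    nlinarith
  nlinarith [mul_neg_of_pos_of_neg h4 h5]

end H76.MS
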