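import Pool.Agent.H76.MS.Dir

/-!
# The strong maximum principle
-/

set_option autoImplicit false

open Filter Topology Metric

noncomputable section

namespace H76.MS

/-- the point of the graph of `v` over `q`, raised by `z` -/
def lift (v : ℝ × ℝ → ℝ) (q : ℝ × ℝ) (z : ℝ) : E3 := vec q.1 q.2 (v q + z)

theorem prj_lift (v : ℝ × ℝ → ℝ) (q : ℝ × ℝ) (z : ℝ) : prj (lift v q z) = q := rfl

theorem lift_two (v : ℝ × ℝ → ℝ) (q : ℝ × ℝ) (z : ℝ) : (lift v q z) 2 = v q + z := rfl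

theorem lift_eta (v : ℝ × ℝ → ℝ) (x : E3) : lift v (prj x) (x 2 - v (prj x)) = x := by
  unfold lift
  rw [add_sub_cancel]
  exact vec_eta x

theorem lift_continuousOn {v : ℝ × ℝ → ℝ} {U : Set (ℝ × ℝ)} (hv : ContinuousOn v U) :
    ContinuousOn (fun a : (ℝ × ℝ) × ℝ => lift v a.1 a.2) (U ×ˢ Set.univ) := by
  unfold lift
  refine continuous_vec (by fun_prop) (by fun_prop) ?_
  exact (hv.comp continuousOn_fst fun a ha => ha.1).add continuousOn_snd

theorem sqd_continuous (c : ℝ × ℝ) : Continuous (sqd c) := by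
  unfold sqd
  fun_prop

theorem sqd_nonneg (c q : ℝ × ℝ) : 0 ≤ sqd c q := by unfold sqd; positivity

theorem sqd_eq_zero {c q : ℝ × ℝ} (h : sqd c q = 0) : q = c := by
  unfold sqd at h
  have h1 : (q.1 - c.1) ^ 2 = 0 := by nlinarith [sq_nonneg (q.1 - c.1), sq_nonneg (q.2 - c.2)]
  have h2 : (q.2 - c.2) ^ 2 = 0 := by nlinarith [sq_nonneg (q.1 - c.1), sq_nonneg (q.2 - c.2)]
  exact Prod.ext (by simpa [sub_eq_zero] using h1) (by simpa [sub_eq_zero] using h2)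

theorem sqd_le_of_dist {c q : ℝ × ℝ} {N : ℝ} (h : dist q c ≤ N) : sqd c q ≤ 2 * N ^ 2 := by
  rw [Prod.dist_eq, max_le_iff, Real.dist_eq, Real.dist_eq] at h
  unfold sqd
  have h1 : (q.1 - c.1) ^ 2 ≤ N ^ 2 := sq_le_sq' (by linarith [(abs_le.1 h.1).1]) (abs_le.1 h.1).2
  have h2 : (q.2 - c.2) ^ 2 ≤ N ^ 2 := sq_le_sq' (by linarith [(abs_le.1 h.2).1]) (abs_le.1 h.2).2
  linarith

theorem dist_le_of_sqd {c q : ℝ × ℝ} {N : ℝ} (hN : 0 ≤ N) (h : sqd c q ≤ N ^ 2) :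
    dist q c ≤ N := by
  unfold sqd at h
  rw [Prod.dist_eq, max_le_iff, Real.dist_eq, Real.dist_eq]
  constructor
  · exact abs_le_of_sq_le_sq (by nlinarith [sq_nonneg (q.2 - c.2)]) hN
  · exact abs_le_of_sq_le_sq (by nlinarith [sq_nonneg (q.1 - c.1)]) hN

/-- a function with negative derivative decreases to the right -/
theorem eventually_lt_of_deriv_neg {f : ℝ → ℝ} {c : ℝ} (hf : HasDerivAt f c 0) (hc : c < 0) :
    ∀ᶠ t in 𝓝[>] (0 : ℝ), f t < f 0 := by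
  have h1 := (hasDerivAt_iff_tendsto_slope.1 hf).mono_left
    (nhdsWithin_mono (0 : ℝ) (fun t (ht : t ∈ Set.Ioi (0 : ℝ)) => (ne_of_gt ht : t ≠ 0)))
  filter_upwards [h1.eventually (eventually_lt_nhds hc), self_mem_nhdsWithin] with t ht1 ht2
  have ht0 : (0 : ℝ) < t := ht2
  rw [slope_def_field, sub_zero, div_lt_iff₀ ht0, zero_mul] at ht1
  linarith

/-- data for the local argument: bounds near `q0` -/
theorem local_bounds {v : ℝ × ℝ → ℝ} {U : Set (ℝ × ℝ)} (hU : IsOpen U) {q0 : ℝ × ℝ} (h0 : q0 ∈ U)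
    (hv : ContDiffOn ℝ 2 v U) : ∃ L C0 : ℝ, 0 ≤ L ∧ 0 ≤ C0 ∧ ∀ᶠ q in 𝓝 q0, q ∈ U ∧
      |fderiv ℝ v q (1, 0)| ≤ L ∧ |fderiv ℝ v q (0, 1)| ≤ L ∧
      |fderiv ℝ (fderiv ℝ v) q (1, 0) (1, 0)| ≤ C0 ∧
      |fderiv ℝ (fderiv ℝ v) q (0, 1) (1, 0)| ≤ C0 ∧
      |fderiv ℝ (fderiv ℝ v) q (0, 1) (0, 1)| ≤ C0 := by
  have h1 : ContDiffOn ℝ 1 (fderiv ℝ v) U :=
    hv.fderiv_of_isOpen hU (by norm_num)
  have h2 : ContinuousOn (fderiv ℝ (fderiv ℝ v)) U :=
    (h1.fderiv_of_isOpen hU (m := 0) (by norm_num)).continuousOn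
  have h3 : ContinuousAt (fderiv ℝ (fderiv ℝ v)) q0 := h2.continuousAt (hU.mem_nhds h0)
  have h4 : ∀ a b : ℝ × ℝ, ContinuousAt (fun q => |fderiv ℝ (fderiv ℝ v) q a b|) q0 := by
    intro a b
    have e1 : ContinuousAt (fun q => fderiv ℝ (fderiv ℝ v) q a) q0 :=
      h3.clm_apply continuousAt_const
    exact (e1.clm_apply continuousAt_const).abs
  have h5 : ∀ a : ℝ × ℝ, ContinuousAt (fun q => |fderiv ℝ v q a|) q0 := by
    intro a
    have e1 : ContinuousAt (fun q => fderiv ℝ v q) q0 :=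
      h1.continuousOn.continuousAt (hU.mem_nhds h0)
    exact (e1.clm_apply continuousAt_const).abs
  set c1 := |fderiv ℝ (fderiv ℝ v) q0 (1, 0) (1, 0)| with hc1
  set c2 := |fderiv ℝ (fderiv ℝ v) q0 (0, 1) (1, 0)| with hc2
  set c3 := |fderiv ℝ (fderiv ℝ v) q0 (0, 1) (0, 1)| with hc3
  set d1 := |fderiv ℝ v q0 (1, 0)| with hd1
  set d2 := |fderiv ℝ v q0 (0, 1)| with hd2
  have p1 : 0 ≤ c1 := abs_nonneg _
  have p2 : 0 ≤ c2 := abs_nonneg _
  have p3 : 0 ≤ c3 := abs_nonneg _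
  have p4 : 0 ≤ d1 := abs_nonneg _
  have p5 : 0 ≤ d2 := abs_nonneg _
  refine ⟨d1 + d2 + 1, c1 + c2 + c3 + 1, by positivity, by positivity, ?_⟩
  filter_upwards [hU.mem_nhds h0,
    (h5 (1, 0)).eventually_lt continuousAt_const
      (show |fderiv ℝ v q0 (1, 0)| < d1 + d2 + 1 by rw [← hd1]; linarith),
    (h5 (0, 1)).eventually_lt continuousAt_const
      (show |fderiv ℝ v q0 (0, 1)| < d1 + d2 + 1 by rw [← hd2]; linarith),
    (h4 (1, 0) (1, 0)).eventually_lt continuousAt_const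
      (show |fderiv ℝ (fderiv ℝ v) q0 (1, 0) (1, 0)| < c1 + c2 + c3 + 1 by
        rw [← hc1]; linarith),
    (h4 (0, 1) (1, 0)).eventually_lt continuousAt_const
      (show |fderiv ℝ (fderiv ℝ v) q0 (0, 1) (1, 0)| < c1 + c2 + c3 + 1 by
        rw [← hc2]; linarith),
    (h4 (0, 1) (0, 1)).eventually_lt continuousAt_const
      (show |fderiv ℝ (fderiv ℝ v) q0 (0, 1) (0, 1)| < c1 + c2 + c3 + 1 by
        rw [← hc3]; linarith)]
    with q a1 b1 b2 a2 a3 a4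
  exact ⟨a1, b1.le, b2.le, a2.le, a3.le, a4.le⟩

/-- Local strong maximum principle. -/
theorem localSM {S W0 : Set E3} (hW0 : IsOpen W0) (h00 : (0 : E3) ∉ S)
    (hcl : closure S ∩ W0 ⊆ S) (hS : IsMin S)
    {v : ℝ × ℝ → ℝ} {U : Set (ℝ × ℝ)} (hU : IsOpen U) (hv : ContDiffOn ℝ 2 v U)
    (hQ : ∀ q ∈ U, 0 ≤ MSE v q)
    (hab : ∀ x ∈ S, x ∈ W0 → v (prj x) ≤ x 2) {q0 : ℝ × ℝ} (hq0 : q0 ∈ U)
    (hp : lift v q0 0 ∈ S) (hpW : lift v q0 0 ∈ W0) :
    ∀ᶠ q in 𝓝 q0, lift v q 0 ∈ S := by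
  by_contra hcon
  obtain ⟨L, C0, hL, hC0, hbd⟩ := local_bounds hU hq0 hv
  have hlc := lift_continuousOn hv.continuousOn
  have hlcA : ContinuousAt (fun b : (ℝ × ℝ) × ℝ => lift v b.1 b.2) (q0, 0) :=
    hlc.continuousAt ((hU.prod isOpen_univ).mem_nhds ⟨hq0, trivial⟩)
  have hev : ∀ᶠ b in 𝓝 ((q0, 0) : (ℝ × ℝ) × ℝ), lift v b.1 b.2 ∈ W0 :=
    hlcA.eventually (hW0.mem_nhds hpW)
  obtain ⟨N1, hN1, hN1s⟩ := Metric.eventually_nhds_iff_ball.1 hev
  obtain ⟨N2, hN2, hN2s⟩ := Metric.eventually_nhds_iff_ball.1 hbd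
  set N := min (min (N1 / 2) (N2 / 2)) (1 / 2) with hN
  have hN0 : 0 < N := by positivity
  have hNN1 : N < N1 := by
    have : N ≤ N1 / 2 := (min_le_left _ _).trans (min_le_left _ _)
    linarith
  have hNN2 : N < N2 := by
    have : N ≤ N2 / 2 := (min_le_left _ _).trans (min_le_right _ _)
    linarith
  have hNh : N ≤ 1 / 2 := min_le_right _ _
  have hin : ∀ q : ℝ × ℝ, dist q q0 ≤ N → ∀ z : ℝ, |z| ≤ N → lift v q z ∈ W0 := by
    intro q hq z hz
    refine hN1s (q, z) ?_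
    rw [mem_ball, Prod.dist_eq, max_lt_iff]
    refine ⟨hq.trans_lt hNN1, ?_⟩
    simpa using hz.trans_lt hNN1
  have hbdN : ∀ q : ℝ × ℝ, dist q q0 ≤ N → q ∈ U ∧
      |fderiv ℝ v q (1, 0)| ≤ L ∧ |fderiv ℝ v q (0, 1)| ≤ L ∧
      |fderiv ℝ (fderiv ℝ v) q (1, 0) (1, 0)| ≤ C0 ∧
      |fderiv ℝ (fderiv ℝ v) q (0, 1) (1, 0)| ≤ C0 ∧
      |fderiv ℝ (fderiv ℝ v) q (0, 1) (0, 1)| ≤ C0 := fun q hq =>
    hN2s q (by rw [mem_ball]; exact hq.trans_lt hNN2)
  -- a point `c` near `q0` which is not in the contact set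
  obtain ⟨c, hcd, hcS⟩ : ∃ c : ℝ × ℝ, dist c q0 < N / 4 ∧ lift v c 0 ∉ S := by
    by_contra h
    push Not at h
    apply hcon
    filter_upwards [ball_mem_nhds q0 (show 0 < N / 4 by positivity)] with q hq
    exact h q hq
  -- closedness of the contact set
  have hPB : ∀ q : ℝ × ℝ, dist q q0 ≤ N → ∀ z : ℝ, |z| ≤ N → lift v q z ∈ closure S →
      lift v q z ∈ S := by
    intro q hq z hz h
    exact hcl ⟨h, hin q hq z hz⟩
  have hcN : ∀ T : Set ((ℝ × ℝ) × ℝ), IsCompact T → (∀ b ∈ T, dist b.1 q0 ≤ N ∧ |b.2| ≤ N) →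
      IsCompact (S ∩ (fun b : (ℝ × ℝ) × ℝ => lift v b.1 b.2) '' T) := by
    intro T hT hTN
    have hTc : ContinuousOn (fun b : (ℝ × ℝ) × ℝ => lift v b.1 b.2) T :=
      hlc.mono fun b hb => ⟨(hbdN _ (hTN b hb).1).1, trivial⟩
    have hi := hT.image_of_continuousOn hTc
    have heq : S ∩ (fun b : (ℝ × ℝ) × ℝ => lift v b.1 b.2) '' T =
        closure S ∩ (fun b : (ℝ × ℝ) × ℝ => lift v b.1 b.2) '' T := by
      ext x
      constructor
      · rintro ⟨h1, h2⟩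
        exact ⟨subset_closure h1, h2⟩
      · rintro ⟨h1, b, hb, rfl⟩
        exact ⟨hPB _ (hTN b hb).1 _ (hTN b hb).2 h1, b, hb, rfl⟩
    rw [heq]
    exact hi.inter_left isClosed_closure
  have hd0 : ∀ q : ℝ × ℝ, dist q q0 ≤ N → ∀ z : ℝ, |z| ≤ N → lift v q z ∈ S → 0 ≤ z := by
    intro q hq z hz h
    have := hab _ h (hin q hq z hz)
    rw [prj_lift, lift_two] at this
    linarith
  -- the nearest contact point
  set Z : Set E3 := S ∩ (fun b : (ℝ × ℝ) × ℝ => lift v b.1 b.2) ''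
    (closedBall q0 N ×ˢ {(0 : ℝ)}) with hZ
  have hZc : IsCompact Z := by
    refine hcN _ ((isCompact_closedBall q0 N).prod isCompact_singleton) ?_
    rintro b ⟨hb1, hb2⟩
    refine ⟨hb1, ?_⟩
    rw [Set.mem_singleton_iff.1 hb2, abs_zero]
    exact hN0.le
  have hZne : Z.Nonempty :=
    ⟨lift v q0 0, hp, (q0, 0), ⟨mem_closedBall_self hN0.le, rfl⟩, rfl⟩
  obtain ⟨ps, hps, hpmin⟩ := hZc.exists_isMinOn hZne
    ((sqd_continuous c).comp prj.continuous).continuousOn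
  obtain ⟨hpsS, ⟨qs, zs⟩, ⟨hqsN, hzs⟩, hpse⟩ := hps
  have hzs0 : zs = 0 := hzs
  subst hzs0
  have hpse' : lift v qs 0 = ps := hpse
  have hprjps : prj ps = qs := by rw [← hpse', prj_lift]
  set ρ2 := sqd c qs with hρ2
  have hρ2min : ∀ q : ℝ × ℝ, dist q q0 ≤ N → lift v q 0 ∈ S → ρ2 ≤ sqd c q := by
    intro q hq hqS
    have h1 : lift v q 0 ∈ Z := ⟨hqS, (q, 0), ⟨hq, rfl⟩, rfl⟩
    have h2 := hpmin h1
    simp only [Function.comp_apply, prj_lift, hprjps, Set.mem_ofPred_eq] at h2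
    exact h2
  have hρ2N : ρ2 ≤ 2 * (N / 4) ^ 2 := by
    have h1 := hρ2min q0 (by rw [dist_self]; exact hN0.le) hp
    refine h1.trans (sqd_le_of_dist ?_)
    rw [dist_comm]; exact hcd.le
  have hρ20 : 0 < ρ2 := by
    rcases (sqd_nonneg c qs).lt_or_eq with h | h
    · exact h
    · exfalso
      have := sqd_eq_zero h.symm
      rw [this] at hpse'
      rw [← hpse'] at hpsS
      exact hcS hpsS
  have hdisc : ∀ q : ℝ × ℝ, sqd c q ≤ ρ2 → dist q q0 < N := by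
    intro q hq
    have h1 : sqd c q ≤ (N / 2) ^ 2 := hq.trans (hρ2N.trans (by nlinarith))
    have h2 := dist_le_of_sqd (by positivity) h1
    have h3 := dist_triangle q c q0
    linarith
  have hρ21 : ρ2 ≤ 1 := hρ2N.trans (by nlinarith)
  -- the constants
  obtain ⟨α, hα, hbig⟩ : ∃ α : ℝ, 0 < α ∧
      (1 + (L + 1) ^ 2) + 2 * C0 * (2 * L + 1) < α * (ρ2 / 4) := by
    refine ⟨((1 + (L + 1) ^ 2) + 2 * C0 * (2 * L + 1) + 1) / (ρ2 / 4), by positivity, ?_⟩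
    rw [div_mul_cancel₀ _ (by positivity)]
    linarith
  set β := Real.exp (-(α * ρ2)) with hβ
  -- a lower bound on the inner circle
  obtain ⟨m, hm, hms⟩ : ∃ m > 0, ∀ x ∈ S, sqd c (prj x) = ρ2 / 4 → x 2 - v (prj x) ≤ N →
      0 ≤ x 2 - v (prj x) → m ≤ x 2 - v (prj x) := by
    set T : Set ((ℝ × ℝ) × ℝ) := ({q | sqd c q = ρ2 / 4} ∩ closedBall q0 N) ×ˢ Set.Icc 0 N with hT
    have hTc : IsCompact T := by
      refine IsCompact.prod ?_ isCompact_Icc
      exact (isCompact_closedBall q0 N).inter_left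
        (isClosed_eq (sqd_continuous c) continuous_const)
    have hTN : ∀ b ∈ T, dist b.1 q0 ≤ N ∧ |b.2| ≤ N := by
      rintro b ⟨⟨_, hb1⟩, hb2⟩
      exact ⟨hb1, by rw [abs_of_nonneg hb2.1]; exact hb2.2⟩
    have hc := hcN T hTc hTN
    have hmem : ∀ x ∈ S, sqd c (prj x) = ρ2 / 4 → x 2 - v (prj x) ≤ N →
      0 ≤ x 2 - v (prj x) → x ∈ S ∩ (fun b : (ℝ × ℝ) × ℝ => lift v b.1 b.2) '' T := by
      intro x hx h1 h2 h3
      refine ⟨hx, (prj x, x 2 - v (prj x)), ⟨⟨h1, ?_⟩, h3, h2⟩, lift_eta v x⟩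
      exact (hdisc _ (by rw [h1]; linarith)).le
    rcases (S ∩ (fun b : (ℝ × ℝ) × ℝ => lift v b.1 b.2) '' T).eq_empty_or_nonempty with he | hne
    · refine ⟨1, one_pos, fun x hx h1 h2 h3 => ?_⟩
      have := hmem x hx h1 h2 h3
      rw [he] at this
      exact this.elim
    · have hdc : ContinuousOn (fun x : E3 => x 2 - v (prj x))
          (S ∩ (fun b : (ℝ × ℝ) × ℝ => lift v b.1 b.2) '' T) := by
        refine ContinuousOn.sub (by fun_prop) ?_
        refine hv.continuousOn.comp prj.continuous.continuousOn ?_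
        rintro x ⟨_, b, hb, rfl⟩
        exact (hbdN _ (hTN b hb).1).1
      obtain ⟨y, hy, hmin⟩ := hc.exists_isMinOn hne hdc
      refine ⟨y 2 - v (prj y), ?_, fun x hx h1 h2 h3 => hmin (hmem x hx h1 h2 h3)⟩
      obtain ⟨hyS, b, hb, rfl⟩ := hy
      rw [prj_lift, lift_two]
      have hb0 : 0 ≤ b.2 := hb.2.1
      rcases hb0.lt_or_eq with h | h
      · linarith
      · exfalso
        have h4 : lift v b.1 0 ∈ S := by rw [h]; exact hyS
        have h5 := hρ2min b.1 (hTN b hb).1 h4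
        have h6 : sqd c b.1 = ρ2 / 4 := hb.1.1
        rw [h6] at h5
        linarith
  set ε := min (min (m / 2) (N / 2)) (1 / (2 * α)) with hε
  have hε0 : 0 < ε := by positivity
  have hεm : ε ≤ m / 2 := (min_le_left _ _).trans (min_le_left _ _)
  have hεN : ε ≤ N / 2 := (min_le_left _ _).trans (min_le_right _ _)
  have hεα : 2 * α * ε ≤ 1 := by
    have : ε ≤ 1 / (2 * α) := min_le_right _ _
    rw [le_div_iff₀ (by positivity)] at this
    linarith
  have hh1 : ∀ q, hf α β c q ≤ 1 := by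
    intro q
    unfold hf
    have h1 : Real.exp (-(α * sqd c q)) ≤ 1 := by
      rw [Real.exp_le_one_iff]
      have := mul_nonneg hα.le (sqd_nonneg c q)
      linarith
    have h2 : 0 < β := Real.exp_pos _
    linarith
  have hh0 : ∀ q, sqd c q = ρ2 → hf α β c q = 0 := by
    intro q hq
    unfold hf
    rw [hq, hβ, sub_self]
  -- the region
  set A : Set E3 := S ∩ (fun b : (ℝ × ℝ) × ℝ => lift v b.1 b.2) ''
    (({q | ρ2 / 4 ≤ sqd c q ∧ sqd c q ≤ ρ2} ∩ closedBall q0 N) ×ˢ Set.Icc 0 N) with hA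
  have hAN : ∀ b ∈ (({q | ρ2 / 4 ≤ sqd c q ∧ sqd c q ≤ ρ2} ∩ closedBall q0 N) ×ˢ Set.Icc 0 N :
      Set ((ℝ × ℝ) × ℝ)), dist b.1 q0 ≤ N ∧ |b.2| ≤ N := by
    rintro b ⟨⟨_, hb1⟩, hb2⟩
    exact ⟨hb1, by rw [abs_of_nonneg hb2.1]; exact hb2.2⟩
  have hAc : IsCompact A := by
    refine hcN _ ?_ hAN
    refine IsCompact.prod ?_ isCompact_Icc
    refine (isCompact_closedBall q0 N).inter_left ?_
    exact (isClosed_le continuous_const (sqd_continuous c)).inter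
      (isClosed_le (sqd_continuous c) continuous_const)
  have hAmem : ∀ x ∈ S, ρ2 / 4 ≤ sqd c (prj x) → sqd c (prj x) ≤ ρ2 → x 2 - v (prj x) ≤ N →
      0 ≤ x 2 - v (prj x) → x ∈ A := by
    intro x hx h1 h2 h3 h4
    exact ⟨hx, (prj x, x 2 - v (prj x)), ⟨⟨⟨h1, h2⟩, (hdisc _ h2).le⟩, h4, h3⟩, lift_eta v x⟩
  have hAout : ∀ x ∈ A, x ∈ S ∧ ρ2 / 4 ≤ sqd c (prj x) ∧ sqd c (prj x) ≤ ρ2 ∧
      x 2 - v (prj x) ≤ N ∧ 0 ≤ x 2 - v (prj x) ∧ dist (prj x) q0 ≤ N ∧ x ∈ W0 := by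
    rintro x ⟨hxS, b, hb, rfl⟩
    refine ⟨hxS, hb.1.1.1, hb.1.1.2, ?_, ?_, (hAN b hb).1, hin _ (hAN b hb).1 _ (hAN b hb).2⟩
    · simp only [prj_lift, lift_two]
      have := hb.2.2
      linarith
    · simp only [prj_lift, lift_two]
      have := hb.2.1
      linarith
  set w : ℝ × ℝ → ℝ := fun q => v q + ε * hf α β c q with hw
  have hwA : ∀ x ∈ A, 0 ≤ x 2 - w (prj x) := by
    by_contra hneg
    push Not at hneg
    obtain ⟨x1, hx1, hx1n⟩ := hneg
    have hFc : ContinuousOn (fun x : E3 => x 2 - w (prj x)) A := by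
      refine ContinuousOn.sub (by fun_prop) ?_
      refine ContinuousOn.add ?_ ?_
      · refine hv.continuousOn.comp prj.continuous.continuousOn ?_
        intro x hx
        exact (hbdN _ (hAout x hx).2.2.2.2.2.1).1
      · exact (continuous_const.mul ((hf_contDiff α β c).continuous.comp
          prj.continuous)).continuousOn
    obtain ⟨x2, hx2, hmin⟩ := hAc.exists_isMinOn ⟨x1, hx1⟩ hFc
    have hneg2 : x2 2 - w (prj x2) < 0 := lt_of_le_of_lt (hmin hx1) hx1n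
    obtain ⟨hx2S, g1, g2, g3, g4, g5, g6⟩ := hAout x2 hx2
    have hwx : w (prj x2) = v (prj x2) + ε * hf α β c (prj x2) := rfl
    have hεh : ε * hf α β c (prj x2) ≤ ε := by
      have := mul_le_mul_of_nonneg_left (hh1 (prj x2)) hε0.le
      linarith
    have k1 : sqd c (prj x2) < ρ2 := by
      rcases g2.lt_or_eq with h | h
      · exact h
      · exfalso
        rw [hwx, hh0 _ h, mul_zero, add_zero] at hneg2
        linarith
    have k2 : ρ2 / 4 < sqd c (prj x2) := by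
      rcases g1.lt_or_eq with h | h
      · exact h
      · exfalso
        have := hms x2 hx2S h.symm g3 g4
        linarith
    have k3 : x2 2 - v (prj x2) < N := by
      rcases g3.lt_or_eq with h | h
      · exact h
      · exfalso
        linarith
    have hx20 : x2 ≠ 0 := fun h => h00 (h ▸ hx2S)
    obtain ⟨u1, u2, u3, u4, u5, u6⟩ := hbdN _ g5
    have hvc : ContDiffAt ℝ 2 v (prj x2) := hv.contDiffAt (hU.mem_nhds u1)
    have hwc : ContDiffAt ℝ 2 w (prj x2) :=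
      hvc.add (contDiffAt_const.mul (hf_contDiff α β c).contDiffAt)
    have hpos := hopf_mse (β := β) hvc (hQ _ u1) hL u2 u3 u4 u5 u6 hα hε0 hεα g1
      (g2.trans hρ21) hbig
    refine absurd (noTouch hS hx2S hx20 hwc ?_) (not_le.2 hpos)
    unfold IsLocalMinOn IsMinFilter
    rw [eventually_nhdsWithin_iff]
    have c1 : ContinuousAt (fun x : E3 => sqd c (prj x)) x2 :=
      ((sqd_continuous c).comp prj.continuous).continuousAt
    have c2 : ContinuousAt (fun x : E3 => x 2 - v (prj x)) x2 := by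
      refine ContinuousAt.sub (by fun_prop) ?_
      exact ContinuousAt.comp hvc.continuousAt prj.continuous.continuousAt
    filter_upwards [c1.eventually (eventually_lt_nhds k1), c1.eventually (eventually_gt_nhds k2),
      c2.eventually (eventually_lt_nhds k3), hW0.mem_nhds g6] with x e1 e2 e3 e4 hxS
    have h0 := hab x hxS e4
    exact hmin (hAmem x hxS e2.le e1.le e3.le (by linarith))
  -- the contradiction at the nearest point
  have hqsd : dist qs q0 ≤ N := hqsN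
  obtain ⟨u1, -⟩ := hbdN _ hqsd
  have hvd : DifferentiableAt ℝ v (prj ps) := by
    rw [hprjps]
    exact (hv.contDiffAt (hU.mem_nhds u1)).differentiableAt (by norm_num)
  have hpsr : ps ∈ W0 := by
    rw [← hpse']
    exact hin qs hqsd 0 (by rw [abs_zero]; exact hN0.le)
  have hps2 : ps 2 - v (prj ps) = 0 := by
    rw [← hpse', prj_lift, lift_two]; ring
  have hmin0 : IsLocalMinOn (fun x : E3 => x 2 - v (prj x)) S ps := by
    unfold IsLocalMinOn IsMinFilter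
    rw [eventually_nhdsWithin_iff]
    filter_upwards [hW0.mem_nhds hpsr] with x e4 hxS
    have h0 := hab x hxS e4
    rw [hps2]
    linarith
  obtain ⟨γ, γ', hγ0, hγS, hγd, hγb, hγ2⟩ := touch_curve hS hpsS hvd hmin0 (c - qs)
  have hpd : HasDerivAt (fun t => prj (γ t)) (c - qs) 0 := by
    have := prj.hasFDerivAt.comp_hasDerivAt (0 : ℝ) hγd
    rw [hγb] at this
    exact this
  have hsd : HasDerivAt (fun t => sqd c (prj (γ t))) (-(2 * ρ2)) 0 := by
    have h1 := (sqd_deriv c (prj (γ 0))).comp_hasDerivAt (0 : ℝ) hpd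
    rw [hγ0, hprjps] at h1
    refine h1.congr_deriv ?_
    rw [hρ2]
    simp [sqd]
    ring
  have hs0 : sqd c (prj (γ 0)) = ρ2 := by rw [hγ0, hprjps]
  have hFd : HasDerivAt (fun t => (γ t) 2 - w (prj (γ t)))
      (-(ε * (2 * α * ρ2 * β))) 0 := by
    have h1 : HasDerivAt (fun t => (γ t) 2) (γ' 2) 0 :=
      (EuclideanSpace.proj (2 : Fin 3) : E3 →L[ℝ] ℝ).hasFDerivAt.comp_hasDerivAt (0 : ℝ) hγd
    have h2 : HasDerivAt (fun t => v (prj (γ t))) (fderiv ℝ v (prj ps) (c - qs)) 0 := by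
      have h3 : HasFDerivAt v (fderiv ℝ v (prj ps)) (prj (γ 0)) := by
        rw [hγ0]; exact hvd.hasFDerivAt
      exact h3.comp_hasDerivAt (0 : ℝ) hpd
    have h4 : HasDerivAt (fun t => hf α β c (prj (γ t))) (hf' α c qs (c - qs)) 0 := by
      have h3 := (hf_deriv α β c (prj (γ 0))).comp_hasDerivAt (0 : ℝ) hpd
      rw [hγ0, hprjps] at h3
      exact h3
    have h5 := h1.sub (h2.add (h4.const_mul ε))
    rw [hγ2] at h5
    refine h5.congr_deriv ?_
    have h6 : hf' α c qs (c - qs) = 2 * α * ρ2 * β := by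
      rw [hβ, hρ2]
      simp [hf', sqd]
      ring
    rw [h6]
    ring
  have hF0 : (γ 0) 2 - w (prj (γ 0)) = 0 := by
    have : w (prj (γ 0)) = v (prj ps) + ε * hf α β c (prj ps) := by rw [hγ0]
    rw [this, hγ0, hh0 _ (by rw [hprjps]), mul_zero, add_zero]
    exact hps2
  have hβ0 : 0 < β := Real.exp_pos _
  have hFneg := eventually_lt_of_deriv_neg hFd (by
    rw [neg_lt_zero]; positivity)
  have hsneg := eventually_lt_of_deriv_neg hsd (by rw [neg_lt_zero]; positivity)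
  have hsc : ContinuousAt (fun t => sqd c (prj (γ t))) 0 := hsd.continuousAt
  have hdc : ContinuousAt (fun t => (γ t) 2 - v (prj (γ t))) 0 := by
    have h1 : ContinuousAt (fun t => (γ t) 2) 0 :=
      ((EuclideanSpace.proj (2 : Fin 3) : E3 →L[ℝ] ℝ).hasFDerivAt.comp_hasDerivAt (0 : ℝ)
        hγd).continuousAt
    have h2 : ContinuousAt (fun t => v (prj (γ t))) 0 := by
      have h3 : ContinuousAt v ((fun t => prj (γ t)) 0) := by
        change ContinuousAt v (prj (γ 0))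
        rw [hγ0]; exact hvd.continuousAt
      exact ContinuousAt.comp (f := fun t => prj (γ t)) h3 hpd.continuousAt
    exact h1.sub h2
  have hnc : Tendsto γ (𝓝 0) (𝓝 ps) := by
    have := hγd.continuousAt.tendsto
    rwa [hγ0] at this
  have hev1 : ∀ᶠ t in 𝓝[>] (0 : ℝ), ρ2 / 4 < sqd c (prj (γ t)) := by
    refine nhdsWithin_le_nhds (hsc.eventually (eventually_gt_nhds ?_))
    change ρ2 / 4 < sqd c (prj (γ 0))
    rw [hs0]; linarith
  have hev2 : ∀ᶠ t in 𝓝[>] (0 : ℝ), (γ t) 2 - v (prj (γ t)) < N := by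
    refine nhdsWithin_le_nhds (hdc.eventually (eventually_lt_nhds ?_))
    change (γ 0) 2 - v (prj (γ 0)) < N
    rw [hγ0, hps2]; exact hN0
  have hev3 : ∀ᶠ t in 𝓝[>] (0 : ℝ), γ t ∈ W0 :=
    nhdsWithin_le_nhds (hnc.eventually (hW0.mem_nhds hpsr))
  have hev4 : ∀ᶠ t in 𝓝[>] (0 : ℝ), γ t ∈ S := nhdsWithin_le_nhds hγS
  obtain ⟨t, ht1, ht2, ht3, ht4, ht5, ht6⟩ :=
    (hFneg.and (hsneg.and (hev1.and (hev2.and (hev3.and hev4))))).exists
  rw [hF0] at ht1
  rw [hs0] at ht2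
  have h0 := hab _ ht6 ht5
  have := hwA _ (hAmem _ ht6 ht3.le ht2.le ht4.le (by linarith))
  linarith

end H76.MS
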