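import Pool.Agent.H76.MS.Deriv

/-!
# First and second order conditions at a local minimum on a minimal surface
-/

set_option autoImplicit false

open Filter Topology

noncomputable section

namespace H76.MS

theorem vec_apply (x y z : ℝ) : (vec x y z) 0 = x ∧ (vec x y z) 1 = y ∧ (vec x y z) 2 = z :=
  ⟨rfl, rfl, rfl⟩

theorem inner_vec (a : E3) (x y z : ℝ) :
    inner ℝ a (vec x y z) = a 0 * x + a 1 * y + a 2 * z := by
  rw [EuclideanSpace.inner_eq_star_dotProduct]
  simp [dotProduct, Fin.sum_univ_three, vec]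
  ring

theorem inner_E3 (a b : E3) : inner ℝ a b = a 0 * b 0 + a 1 * b 1 + a 2 * b 2 := by
  rw [EuclideanSpace.inner_eq_star_dotProduct]
  simp [dotProduct, Fin.sum_univ_three]
  ring

theorem vec_eta (a : E3) : vec (a 0) (a 1) (a 2) = a := by
  ext i
  fin_cases i <;> rfl

theorem vec_add (x y z x' y' z' : ℝ) :
    vec x y z + vec x' y' z' = vec (x + x') (y + y') (z + z') := by
  ext i
  fin_cases i <;> rfl

theorem vec_zero : vec 0 0 0 = 0 := by
  ext i
  fin_cases i <;> rfl

theorem hasDerivAt_vec {a b c : ℝ → ℝ} {a' b' c' t : ℝ} (ha : HasDerivAt a a' t)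
    (hb : HasDerivAt b b' t) (hc : HasDerivAt c c' t) :
    HasDerivAt (fun t => vec (a t) (b t) (c t)) (vec a' b' c') t := by
  have h1 : HasDerivAt (fun t => ![a t, b t, c t]) ![a', b', c'] t := by
    rw [hasDerivAt_pi]
    intro i
    fin_cases i
    · exact ha
    · exact hb
    · exact hc
  exact (EuclideanSpace.equiv (Fin 3) ℝ).symm.toContinuousLinearMap.hasFDerivAt.comp_hasDerivAt t h1

theorem continuous_vec {X : Type*} [TopologicalSpace X] {a b c : X → ℝ} {s : Set X}
    (ha : ContinuousOn a s) (hb : ContinuousOn b s) (hc : ContinuousOn c s) :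
    ContinuousOn (fun t => vec (a t) (b t) (c t)) s := by
  have h1 : ContinuousOn (fun t => ![a t, b t, c t]) s := by
    rw [continuousOn_pi]
    intro i
    fin_cases i
    · exact ha
    · exact hb
    · exact hc
  exact (EuclideanSpace.equiv (Fin 3) ℝ).symm.continuous.comp_continuousOn h1

/-- conditions at a local minimum of a function on a minimal surface -/
theorem surfTest {S : Set E3} (hS : IsMin S) {p : E3} (hp : p ∈ S) {F : E3 → ℝ}
    {F' : E3 → E3 →L[ℝ] ℝ} {F'' : E3 →L[ℝ] E3 →L[ℝ] ℝ}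
    (hF : ∀ᶠ x in 𝓝 p, HasFDerivAt F (F' x) x) (hF' : HasFDerivAt F' F'' p)
    (hmin : IsLocalMinOn F S p) :
    ∃ n : E3, 1 ≤ ‖n‖ ∧ ∃ E : Fin 3 → E3, (∀ k, F' p (E k) = 0) ∧
      0 ≤ ∑ k, F'' (E k) (E k) ∧
      ∀ a b : E3, ∑ k, inner ℝ a (E k) * inner ℝ b (E k) =
        ‖n‖ ^ 2 * inner ℝ a b - inner ℝ n a * inner ℝ n b := by
  obtain ⟨W, hW, hpW, R, Ω, hΩ, f, hf, hm, hSW⟩ := hS p hp
  have hp2 : p ∈ W ∩ R '' ((fun q : ℝ × ℝ => vec q.1 q.2 (f q)) '' Ω) := hSW ▸ ⟨hp, hpW⟩
  obtain ⟨_, _, ⟨q, hq, rfl⟩, hpq⟩ := hp2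
  have hcf : ∀ r ∈ Ω, ContDiffAt ℝ 2 f r := fun r hr => hf.contDiffAt (hΩ.mem_nhds hr)
  set A := fderiv ℝ f q (1, 0) with hA
  set B := fderiv ℝ f q (0, 1) with hB
  -- the test along the direction `w`
  have key : ∀ w : ℝ × ℝ, F' p (R (vec w.1 w.2 (fderiv ℝ f q w))) = 0 ∧
      0 ≤ F'' (R (vec w.1 w.2 (fderiv ℝ f q w))) (R (vec w.1 w.2 (fderiv ℝ f q w))) +
        F' p (R (vec 0 0 (fderiv ℝ (fderiv ℝ f) q w w))) := by
    intro w
    have hline : Continuous fun t : ℝ => q + t • w := by fun_prop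
    have hline0 : q + (0 : ℝ) • w = q := by simp
    have hev : ∀ᶠ t in 𝓝 (0 : ℝ), q + t • w ∈ Ω := by
      have : Tendsto (fun t : ℝ => q + t • w) (𝓝 0) (𝓝 q) := by
        simpa using hline.tendsto 0
      exact this.eventually (hΩ.mem_nhds hq)
    have hd : ∀ t : ℝ, HasDerivAt (fun t : ℝ => q + t • w) w t := by
      intro t
      simpa using ((hasDerivAt_id t).smul_const w).const_add q
    have h1 : ∀ᶠ t in 𝓝 (0 : ℝ), HasDerivAt
        (fun t : ℝ => R (vec (q + t • w).1 (q + t • w).2 (f (q + t • w))))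
        (R (vec w.1 w.2 (fderiv ℝ f (q + t • w) w))) t := by
      filter_upwards [hev] with t ht
      have e1 : HasDerivAt (fun t : ℝ => f (q + t • w)) (fderiv ℝ f (q + t • w) w) t :=
        ((hcf _ ht).differentiableAt (by norm_num)).hasFDerivAt.comp_hasDerivAt t (hd t)
      have e2 : HasDerivAt (fun t : ℝ => (q + t • w).1) w.1 t := (hd t).fst
      have e3 : HasDerivAt (fun t : ℝ => (q + t • w).2) w.2 t := (hd t).snd
      exact R.toContinuousLinearEquiv.toContinuousLinearMap.hasFDerivAt.comp_hasDerivAt t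
        (hasDerivAt_vec e2 e3 e1)
    have h2 : HasDerivAt (fun t : ℝ => R (vec w.1 w.2 (fderiv ℝ f (q + t • w) w)))
        (R (vec 0 0 (fderiv ℝ (fderiv ℝ f) q w w))) 0 := by
      have e1 : HasDerivAt (fun t : ℝ => fderiv ℝ f (q + t • w) w)
          (fderiv ℝ (fderiv ℝ f) q w w) 0 := by
        have e0 : HasFDerivAt (fderiv ℝ f) (fderiv ℝ (fderiv ℝ f) q) (q + (0 : ℝ) • w) := by
          rw [hline0]
          exact (((hcf _ hq).fderiv_right (m := 1) (by norm_num)).differentiableAt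
            (by norm_num)).hasFDerivAt
        have e3 : HasDerivAt (fun t : ℝ => fderiv ℝ f (q + t • w))
            (fderiv ℝ (fderiv ℝ f) q w) 0 := e0.comp_hasDerivAt 0 (hd 0)
        have e4 := e3.clm_apply (hasDerivAt_const (0 : ℝ) w)
        simpa using e4
      exact R.toContinuousLinearEquiv.toContinuousLinearMap.hasFDerivAt.comp_hasDerivAt 0
        (hasDerivAt_vec (hasDerivAt_const _ _) (hasDerivAt_const _ _) e1)
    have hγ0 : R (vec (q + (0 : ℝ) • w).1 (q + (0 : ℝ) • w).2 (f (q + (0 : ℝ) • w))) = p := by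
      rw [hline0]; exact hpq
    have hloc : IsLocalMin
        (fun t : ℝ => F (R (vec (q + t • w).1 (q + t • w).2 (f (q + t • w))))) 0 := by
      have hc : ContinuousAt
          (fun t : ℝ => R (vec (q + t • w).1 (q + t • w).2 (f (q + t • w)))) 0 :=
        h1.self_of_nhds.continuousAt
      have hc' : Tendsto
          (fun t : ℝ => R (vec (q + t • w).1 (q + t • w).2 (f (q + t • w)))) (𝓝 0) (𝓝 p) := by
        have := hc.tendsto
        rwa [hγ0] at this
      have hmin' : ∀ᶠ x in 𝓝 p, x ∈ S → F p ≤ F x := by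
        have := hmin
        unfold IsLocalMinOn IsMinFilter at this
        exact eventually_nhdsWithin_iff.1 this
      have hS' : ∀ᶠ t in 𝓝 (0 : ℝ),
          R (vec (q + t • w).1 (q + t • w).2 (f (q + t • w))) ∈ S := by
        filter_upwards [hev, hc'.eventually (hW.mem_nhds hpW)] with t ht1 ht2
        have : R (vec (q + t • w).1 (q + t • w).2 (f (q + t • w))) ∈ S ∩ W := by
          rw [hSW]
          exact ⟨ht2, _, ⟨_, ht1, rfl⟩, rfl⟩
        exact this.1
      filter_upwards [hS', hc'.eventually hmin'] with t ht1 ht2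
      rw [hγ0]
      exact ht2 ht1
    have := curveTest hγ0 hF hF' h1 h2 hloc
    simpa using this
  have k1 := key (1, 0)
  have k2 := key (0, 1)
  have k3 := key (B, -A)
  have hBA : fderiv ℝ f q (B, -A) = 0 := by
    have e : ((B, -A) : ℝ × ℝ) = B • ((1 : ℝ), (0 : ℝ)) + (-A) • ((0 : ℝ), (1 : ℝ)) := by simp
    rw [e, map_add, map_smul, map_smul, ← hA, ← hB]
    simp only [smul_eq_mul]
    ring
  rw [hBA] at k3
  rw [← hA] at k1
  rw [← hB] at k2
  have hms := mse_sum (hcf q hq)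
  rw [hm q hq, ← hA, ← hB] at hms
  refine ⟨R (vec (-A) (-B) 1), ?_, ![R (vec 1 0 A), R (vec 0 1 B), R (vec B (-A) 0)], ?_, ?_, ?_⟩
  · rw [R.norm_map]
    have h1 : ‖vec (-A) (-B) 1‖ ^ 2 = A ^ 2 + B ^ 2 + 1 := by
      rw [← real_inner_self_eq_norm_sq, inner_vec]
      simp only [vec_apply]
      ring
    nlinarith [norm_nonneg (vec (-A) (-B) 1), sq_nonneg A, sq_nonneg B]
  · intro k
    fin_cases k
    · exact k1.1
    · exact k2.1
    · exact k3.1
  · have h1 : F' p (R (vec 0 0 (fderiv ℝ (fderiv ℝ f) q (1, 0) (1, 0)))) +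
        F' p (R (vec 0 0 (fderiv ℝ (fderiv ℝ f) q (0, 1) (0, 1)))) +
        F' p (R (vec 0 0 (fderiv ℝ (fderiv ℝ f) q (B, -A) (B, -A)))) = 0 := by
      rw [← map_add, ← map_add, ← map_add, ← map_add, vec_add, vec_add, hms]
      simp [vec_zero]
    rw [Fin.sum_univ_three]
    have e1 := k1.2
    have e2 := k2.2
    have e3 := k3.2
    simp only [Matrix.cons_val_zero, Matrix.cons_val_one, Matrix.cons_val_two,
      Matrix.head_cons, Matrix.tail_cons] at *
    linarith
  · intro a b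
    have hR : ∀ (a : E3) (x : E3), inner ℝ a (R x) = inner ℝ (R.symm a) x := by
      intro a x
      rw [← R.symm.inner_map_map, R.symm_apply_apply]
    have hR2 : ∀ (a : E3) (x : E3), inner ℝ (R x) a = inner ℝ (R.symm a) x := by
      intro a x
      rw [real_inner_comm, hR]
    have hab : inner ℝ a b = inner ℝ (R.symm a) (R.symm b) := (R.symm.inner_map_map a b).symm
    have h1 : ‖R (vec (-A) (-B) 1)‖ ^ 2 = A ^ 2 + B ^ 2 + 1 := by
      rw [R.norm_map, ← real_inner_self_eq_norm_sq, inner_vec]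
      simp only [vec_apply]
      ring
    rw [Fin.sum_univ_three, h1, hab]
    simp only [Matrix.cons_val_zero, Matrix.cons_val_one, Matrix.cons_val_two,
      Matrix.head_cons, Matrix.tail_cons]
    simp only [hR, hR2, inner_vec]
    rw [inner_E3]
    ring

end H76.MS
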